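import Pool.Agent.H63.KH.KosAx
import Pool.Agent.H63.KA.Final
import Pool.Agent.H63.KA.Point

/-!
# A category with `K3Data` does not embed into `D^b(coh S)` for a smooth projective surface `S`
-/

namespace Pool.Agent.H63.KH

open CategoryTheory Limits Pretriangulated DerivedCategory H24.Ku KS KA

variable {X : ProjData}

instance (n : ℤ) : (shiftFunctor (Db X) n).Linear ℂ where
  map_smul {A B} f c := by
    let ι := Bounded.ι (C := Coh X)
    have hn : ∀ g : A ⟶ B, ι.map ((shiftFunctor (Db X) n).map g) ≫ (ι.commShiftIso n).hom.app B =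
        (ι.commShiftIso n).hom.app A ≫ (shiftFunctor _ n).map (ι.map g) := fun g =>
      (ι.commShiftIso n).hom.naturality g
    apply ι.map_injective
    rw [← cancel_mono ((ι.commShiftIso n).hom.app B)]
    rw [hn, Functor.map_smul, Functor.map_smul, Linear.comp_smul, ← hn, Functor.map_smul,
      Linear.smul_comp]

theorem surfaceAx_Db (hX : IsSmoothSurface X) (hC : CohFacts X) :
    SurfaceAx (On X) (Rng (X := X)) :=
  surfaceAx_of (surfaceBase_of hC) (hasKoszul hX hC)

universe v u

theorem no_embedding_Db {K : Type u} [Category.{v} K] [Preadditive K] [Linear ℂ K]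
    [HasZeroObject K] [HasShift K ℤ] [∀ n : ℤ, (shiftFunctor K n).Additive] [Pretriangulated K]
    [IsTriangulated K] (hK : K3Data K) (hX : IsSmoothSurface X) (hC : CohFacts X)
    (Φ : K ⥤ Db X) [Φ.CommShift ℤ] [Φ.IsTriangulated] [Φ.Full] [Φ.Faithful] [Φ.Linear ℂ] :
    False :=
  no_embedding hK (surfaceAx_Db hX hC) Φ

end Pool.Agent.H63.KH
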