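import Pool.Agent.H24.Ku.S.OMul
import Pool.Agent.H24.Ku.Ev

/-!
# Morphisms of coherent sheaves and elements of graded modules
-/

namespace Pool.Agent.H63.KH

open CategoryTheory Limits H24.Ku

variable {X : ProjData}

lemma isZero_ev_kernel_iff {M N : Gr X} (f : M ⟶ N) (m : ℤ) :
    IsZero ((ev X m).obj (kernel f)) ↔ Function.Injective (f.hom.app ⟨m⟩).hom := by
  rw [(PreservesKernel.iso (ev X m) f).isZero_iff]
  have h : Function.Injective (f.hom.app ⟨m⟩).hom ↔ Mono ((ev X m).map f) :=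
    (ModuleCat.mono_iff_injective _).symm
  rw [h]
  constructor
  · intro hz
    exact Abelian.mono_of_kernel_ι_eq_zero _ (hz.eq_of_src _ _)
  · intro _
    exact isZero_kernel_of_mono _

lemma isZero_ev_cokernel_iff {M N : Gr X} (f : M ⟶ N) (m : ℤ) :
    IsZero ((ev X m).obj (cokernel f)) ↔ Function.Surjective (f.hom.app ⟨m⟩).hom := by
  rw [(PreservesCokernel.iso (ev X m) f).isZero_iff]
  have h : Function.Surjective (f.hom.app ⟨m⟩).hom ↔ Epi ((ev X m).map f) :=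
    (ModuleCat.epi_iff_surjective _).symm
  rw [h]
  constructor
  · intro hz
    exact Abelian.epi_of_cokernel_π_eq_zero _ (hz.eq_of_tgt _ _)
  · intro _
    exact isZero_cokernel_of_epi _

lemma isZero_ev_image_iff {M N : Gr X} (f : M ⟶ N) (m : ℤ) :
    IsZero ((ev X m).obj (Abelian.image f)) ↔ ∀ x : M.obj.obj ⟨m⟩,
      (f.hom.app ⟨m⟩).hom x = 0 := by
  have h0 : (ev X m).map f = (ev X m).map (Abelian.factorThruImage f) ≫
      (ev X m).map (Abelian.image.ι f) := by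
    rw [← Functor.map_comp, Abelian.image.fac]
  have h : (∀ x : M.obj.obj ⟨m⟩, (f.hom.app ⟨m⟩).hom x = 0) ↔ (ev X m).map f = 0 := by
    constructor
    · intro hx
      ext x
      exact hx x
    · intro hf x
      exact congrArg (fun g => g.hom x) hf
  rw [h]
  constructor
  · intro hz
    rw [h0, hz.eq_of_tgt ((ev X m).map (Abelian.factorThruImage f)) 0, zero_comp]
  · intro hf
    rw [hf] at h0
    have h1 : (ev X m).map (Abelian.image.ι f) = 0 := by
      rw [← cancel_epi ((ev X m).map (Abelian.factorThruImage f)), ← h0, comp_zero]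
    rw [IsZero.iff_id_eq_zero, ← cancel_mono ((ev X m).map (Abelian.image.ι f)), h1, comp_zero,
      comp_zero]

lemma finLen_iff_ev (M : Gr X) : finLen X M ↔ ∃ n₀ : ℤ, ∀ m : ℤ, n₀ ≤ m →
    IsZero ((ev X m).obj M) := by
  rw [finLen_iff]
  exact ⟨fun ⟨n₀, h⟩ => ⟨n₀, fun m hm => h ⟨m⟩ hm⟩, fun ⟨n₀, h⟩ => ⟨n₀, fun m hm => h m.deg hm⟩⟩

/-- `π f = 0` iff `f` is zero in large degrees. -/
lemma sheaf_map_eq_zero_iff {M N : Gr X} (f : M ⟶ N) :
    (sheaf X).map f = 0 ↔ ∃ n₀ : ℤ, ∀ m : ℤ, n₀ ≤ m → ∀ x : M.obj.obj ⟨m⟩,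
      (f.hom.app ⟨m⟩).hom x = 0 := by
  rw [ObjectProperty.SerreClassLocalization.map_eq_zero_iff (sheaf X) (finLen X), finLen_iff_ev]
  exact exists_congr fun n₀ => forall₂_congr fun m _ => isZero_ev_image_iff f m

/-- `π f` is mono iff `f` is injective in large degrees. -/
lemma mono_sheaf_map_iff {M N : Gr X} (f : M ⟶ N) :
    Mono ((sheaf X).map f) ↔ ∃ n₀ : ℤ, ∀ m : ℤ, n₀ ≤ m →
      Function.Injective (f.hom.app ⟨m⟩).hom := by
  rw [ObjectProperty.SerreClassLocalization.mono_map_iff (sheaf X) (finLen X)]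
  refine (finLen_iff_ev (kernel f)).trans ?_
  exact exists_congr fun n₀ => forall₂_congr fun m _ => isZero_ev_kernel_iff f m

/-- `π f` is epi iff `f` is surjective in large degrees. -/
lemma epi_sheaf_map_iff {M N : Gr X} (f : M ⟶ N) :
    Epi ((sheaf X).map f) ↔ ∃ n₀ : ℤ, ∀ m : ℤ, n₀ ≤ m →
      Function.Surjective (f.hom.app ⟨m⟩).hom := by
  rw [ObjectProperty.SerreClassLocalization.epi_map_iff (sheaf X) (finLen X)]
  refine (finLen_iff_ev (cokernel f)).trans ?_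
  exact exists_congr fun n₀ => forall₂_congr fun m _ => isZero_ev_cokernel_iff f m

/-- `π f` is an isomorphism iff `f` is bijective in large degrees. -/
lemma isIso_sheaf_map_iff' {M N : Gr X} (f : M ⟶ N) :
    IsIso ((sheaf X).map f) ↔ ∃ n₀ : ℤ, ∀ m : ℤ, n₀ ≤ m →
      Function.Bijective (f.hom.app ⟨m⟩).hom := by
  constructor
  · intro _
    obtain ⟨n₁, h1⟩ := (mono_sheaf_map_iff f).1 inferInstance
    obtain ⟨n₂, h2⟩ := (epi_sheaf_map_iff f).1 inferInstance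
    exact ⟨max n₁ n₂, fun m hm => ⟨h1 m (le_trans (le_max_left _ _) hm),
      h2 m (le_trans (le_max_right _ _) hm)⟩⟩
  · rintro ⟨n₀, h⟩
    have h1 : Mono ((sheaf X).map f) := (mono_sheaf_map_iff f).2 ⟨n₀, fun m hm => (h m hm).1⟩
    have h2 : Epi ((sheaf X).map f) := (epi_sheaf_map_iff f).2 ⟨n₀, fun m hm => (h m hm).2⟩
    exact isIso_of_mono_of_epi _

lemma secOf_comp_map {M N : Gr X} {e : ℤ} (x : M.obj.obj ⟨-e⟩) (f : M ⟶ N) :
    secOf x ≫ (sheaf X).map f = secOf ((f.hom.app ⟨-e⟩).hom x) := by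
  change (sheaf X).map (freeHom x) ≫ (sheaf X).map f = (sheaf X).map (freeHom _)
  rw [← Functor.map_comp]
  congr 1
  exact freeHom_ext (by
    change (f.hom.app ⟨-e⟩).hom (((freeHom x).hom.app ⟨-e⟩).hom (freeGen X e)) = _
    rw [freeHom_gen, freeHom_gen])

/-- (G1) -/
lemma exists_secOf_comp {N M : Gr X} (f : (sheaf X).obj N ⟶ (sheaf X).obj M) :
    ∃ n₀ : ℤ, ∀ e : ℤ, n₀ ≤ -e → ∀ y : N.obj.obj ⟨-e⟩, ∃ x : M.obj.obj ⟨-e⟩,
      secOf y ≫ f = secOf x := by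
  obtain ⟨φ, hφ⟩ := Localization.exists_rightFraction (sheaf X) (finLen X).isoModSerre f
  have h1 : (sheaf X).map φ.s ≫ f = (sheaf X).map φ.f := by
    rw [hφ]
    exact MorphismProperty.RightFraction.map_s_comp_map _ _ _
  have h2 : Epi ((sheaf X).map φ.s) := by
    have := (isIso_sheaf_map_iff X φ.s).2 φ.hs
    infer_instance
  obtain ⟨n₀, hn⟩ := (epi_sheaf_map_iff φ.s).1 h2
  refine ⟨n₀, fun e he y => ?_⟩
  obtain ⟨z, hz⟩ := hn (-e) he y
  refine ⟨(φ.f.hom.app ⟨-e⟩).hom z, ?_⟩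
  rw [← hz, ← secOf_comp_map, Category.assoc, h1, secOf_comp_map]

/-- (G2) -/
lemma exists_lift_epi {Y : Coh X} {M : Gr X} (q : Y ⟶ (sheaf X).obj M) [Epi q] :
    ∃ n₀ : ℤ, ∀ e : ℤ, n₀ ≤ -e → ∀ x : M.obj.obj ⟨-e⟩, ∃ g : O X e ⟶ Y, g ≫ q = secOf x := by
  have := Localization.essSurj (sheaf X) (finLen X).isoModSerre
  let i := (sheaf X).objObjPreimageIso Y
  obtain ⟨φ, hφ⟩ := Localization.exists_rightFraction (sheaf X) (finLen X).isoModSerre (i.hom ≫ q)
  have h1 : (sheaf X).map φ.f = (sheaf X).map φ.s ≫ i.hom ≫ q := by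
    rw [hφ]
    exact (MorphismProperty.RightFraction.map_s_comp_map _ _ _).symm
  have := (isIso_sheaf_map_iff X φ.s).2 φ.hs
  have h2 : Epi ((sheaf X).map φ.f) := by
    rw [h1]
    infer_instance
  obtain ⟨n₀, hn⟩ := (epi_sheaf_map_iff φ.f).1 h2
  refine ⟨n₀, fun e he x => ?_⟩
  obtain ⟨z, hz⟩ := hn (-e) he x
  refine ⟨secOf z ≫ (sheaf X).map φ.s ≫ i.hom, ?_⟩
  rw [Category.assoc, Category.assoc, ← h1, secOf_comp_map, hz]

end Pool.Agent.H63.KH
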