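import Pool.Agent.H63.KA.Defs

/-!
# KH-2 Chi (additivity of the Euler form)

* `chi_triangle`: put `H_i(A) := finrank (A ⟶ Z⟦i⟧)` etc. and let `p_i`, `f_i`, `d_i` be the ranks
(`finrank` of the range) of `Hom(C, Z[i]) → Hom(B, Z[i])`, `Hom(B, Z[i]) → Hom(A, Z[i])`,
`Hom(A, Z[i]) → Hom(C, Z[i+1])` (the last one: precomposition with `δ⟦-1⟧'` up to isomorphisms). By the
long exact sequence (`Triangle.yoneda_exact₂`, ...) and rank-nullity
`H_i(B) = p_i + f_i`, `H_i(A) = f_i + d_i`, `H_i(C) = d_(i-1) + p_i`. All are zero for `|i|` large; sum with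
signs (`finsum` with finite support, shift of the summation index for `d_(i-1)`).
* `chi_iso`: `Hom(A, Z[i]) ≃ₗ Hom(B, Z[i])`.
* `chi_biproduct`: `Hom(⨁ Y, Z[i]) ≃ₗ ∏ Hom(Y j, Z[i])`, `Module.finrank_pi_fintype`; `finsum` of a finite
sum (supports are finite by `ExtFin.bdd`).
* `chi_single`: `finsum_eq_single`.
-/

namespace Pool.Agent.H63.KH

open CategoryTheory Limits Pretriangulated KA

universe v u

variable {T : Type u} [Category.{v} T] [Preadditive T] [Linear ℂ T] [HasZeroObject T]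
    [HasShift T ℤ] [∀ n : ℤ, (shiftFunctor T n).Additive] [∀ n : ℤ, (shiftFunctor T n).Linear ℂ]
    [Pretriangulated T]

section aux

/-- The alternating sums. -/
private theorem finsum_aux {a b c p q k : ℤ → ℕ} (ha : ∀ i, a i = k (i + 1) + q i)
    (hb : ∀ i, b i = q i + p i) (hc : ∀ i, c i = p i + k i) (N : ℕ)
    (hN : ∀ i : ℤ, (N : ℤ) ≤ |i| → b i = 0 ∧ c i = 0) :
    (∑ᶠ i : ℤ, (Int.negOnePow i : ℤ) * (b i : ℤ)) =
      (∑ᶠ i : ℤ, (Int.negOnePow i : ℤ) * (a i : ℤ)) + ∑ᶠ i : ℤ, (Int.negOnePow i : ℤ) * (c i : ℤ) := by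
  have hfin : ∀ g : ℤ → ℕ, (∀ i : ℤ, (N : ℤ) ≤ |i| → g i = 0) →
      (Function.support fun i : ℤ => (Int.negOnePow i : ℤ) * (g i : ℤ)).Finite := by
    intro g hg
    refine (Set.finite_Icc (-(N : ℤ)) N).subset ?_
    intro i hi
    by_contra hcon
    have h1 : (N : ℤ) ≤ |i| := by
      by_contra h2
      push Not at h2
      have := abs_lt.mp h2
      exact hcon ⟨by omega, by omega⟩
    exact hi (by simp [hg i h1])
  have hp : (Function.support fun i : ℤ => (Int.negOnePow i : ℤ) * (p i : ℤ)).Finite :=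
    hfin p fun i hi => by have := (hN i hi).1; have := hb i; omega
  have hq : (Function.support fun i : ℤ => (Int.negOnePow i : ℤ) * (q i : ℤ)).Finite :=
    hfin q fun i hi => by have := (hN i hi).1; have := hb i; omega
  have hk : (Function.support fun i : ℤ => (Int.negOnePow i : ℤ) * (k i : ℤ)).Finite :=
    hfin k fun i hi => by have := (hN i hi).2; have := hc i; omega
  have hshift : (∑ᶠ i : ℤ, (Int.negOnePow i : ℤ) * (k (i + 1) : ℤ)) =
      - ∑ᶠ i : ℤ, (Int.negOnePow i : ℤ) * (k i : ℤ) := by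
    rw [← finsum_neg_distrib, ← finsum_comp_equiv (Equiv.addRight (1 : ℤ))
      (f := fun i : ℤ => -((Int.negOnePow i : ℤ) * (k i : ℤ)))]
    refine finsum_congr fun i => ?_
    simp [Int.negOnePow_succ]
  have hk' : (Function.support fun i : ℤ => (Int.negOnePow i : ℤ) * (k (i + 1) : ℤ)).Finite := by
    have h1 : (Function.support fun i : ℤ => (Int.negOnePow i : ℤ) * (k (i + 1) : ℤ)) =
        (Equiv.addRight (1 : ℤ)) ⁻¹' (Function.support fun i : ℤ =>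
          (Int.negOnePow i : ℤ) * (k i : ℤ)) := by
      ext i
      simp [Int.negOnePow_succ]
    rw [h1]
    exact hk.preimage (Equiv.injective _).injOn
  have eb : (∑ᶠ i : ℤ, (Int.negOnePow i : ℤ) * (b i : ℤ)) =
      (∑ᶠ i : ℤ, (Int.negOnePow i : ℤ) * (q i : ℤ)) +
        ∑ᶠ i : ℤ, (Int.negOnePow i : ℤ) * (p i : ℤ) := by
    rw [← finsum_add_distrib hq hp]
    refine finsum_congr fun i => ?_
    rw [hb i]; push_cast; ring
  have ec : (∑ᶠ i : ℤ, (Int.negOnePow i : ℤ) * (c i : ℤ)) =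
      (∑ᶠ i : ℤ, (Int.negOnePow i : ℤ) * (p i : ℤ)) +
        ∑ᶠ i : ℤ, (Int.negOnePow i : ℤ) * (k i : ℤ) := by
    rw [← finsum_add_distrib hp hk]
    refine finsum_congr fun i => ?_
    rw [hc i]; push_cast; ring
  have ea : (∑ᶠ i : ℤ, (Int.negOnePow i : ℤ) * (a i : ℤ)) =
      (∑ᶠ i : ℤ, (Int.negOnePow i : ℤ) * (k (i + 1) : ℤ)) +
        ∑ᶠ i : ℤ, (Int.negOnePow i : ℤ) * (q i : ℤ) := by
    rw [← finsum_add_distrib hk' hq]
    refine finsum_congr fun i => ?_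
    rw [ha i]; push_cast; ring
  rw [ea, eb, ec, hshift]
  ring

end aux

theorem chi_triangle {A B C : T} (f : A ⟶ B) (g : B ⟶ C) (δ : C ⟶ A⟦(1 : ℤ)⟧)
    (h : Triangle.mk f g δ ∈ distTriang T) (Z : T) (hA : ExtFin A Z) (hB : ExtFin B Z)
    (hC : ExtFin C Z) : chi B Z = chi A Z + chi C Z := by
  classical
  haveI := hA.fin
  haveI := hB.fin
  haveI := hC.fin
  -- the maps of the long exact sequence
  let P : ∀ i : ℤ, (C ⟶ Z⟦i⟧) →ₗ[ℂ] (B ⟶ Z⟦i⟧) := fun i => Linear.leftComp ℂ (Z⟦i⟧) g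
  let Q : ∀ i : ℤ, (B ⟶ Z⟦i⟧) →ₗ[ℂ] (A ⟶ Z⟦i⟧) := fun i => Linear.leftComp ℂ (Z⟦i⟧) f
  let e : ∀ i : ℤ, (Z⟦i⟧)⟦(1 : ℤ)⟧ ≅ Z⟦i + 1⟧ := fun i =>
    ((shiftFunctorAdd' T i 1 (i + 1) rfl).app Z).symm
  let D : ∀ i : ℤ, (A ⟶ Z⟦i⟧) →ₗ[ℂ] (C ⟶ Z⟦i + 1⟧) := fun i =>
    { toFun := fun φ => δ ≫ φ⟦(1 : ℤ)⟧' ≫ (e i).hom
      map_add' := by intro φ ψ; simp [Functor.map_add]
      map_smul' := by intro r φ; simp [Functor.map_smul] }
  have hPQ : ∀ i, LinearMap.ker (Q i) = LinearMap.range (P i) := by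
    intro i
    ext φ
    rw [LinearMap.mem_ker, LinearMap.mem_range]
    constructor
    · intro hφ
      obtain ⟨ψ, hψ⟩ := Triangle.yoneda_exact₂ _ h φ hφ
      exact ⟨ψ, hψ.symm⟩
    · rintro ⟨ψ, rfl⟩
      have h0 : f ≫ g = 0 := comp_distTriang_mor_zero₁₂ _ h
      change f ≫ g ≫ ψ = 0
      rw [← Category.assoc, h0, zero_comp]
  have hD : ∀ i, LinearMap.ker (D i) = LinearMap.range (Q i) := by
    intro i
    ext φ
    rw [LinearMap.mem_ker, LinearMap.mem_range]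
    constructor
    · intro hφ
      have h1 : δ ≫ φ⟦(1 : ℤ)⟧' = 0 := by
        have h2 : (δ ≫ φ⟦(1 : ℤ)⟧') ≫ (e i).hom = 0 := by
          rw [Category.assoc]; exact hφ
        rw [← cancel_mono (e i).hom, h2, zero_comp]
      obtain ⟨ψ, hψ⟩ := Triangle.yoneda_exact₃ _ (rot_of_distTriang _ h) (φ⟦(1 : ℤ)⟧') h1
      change B⟦(1 : ℤ)⟧ ⟶ (Z⟦i⟧)⟦(1 : ℤ)⟧ at ψ
      change φ⟦(1 : ℤ)⟧' = (-(f⟦(1 : ℤ)⟧')) ≫ ψ at hψ
      obtain ⟨χ, hχ⟩ := (shiftFunctor T (1 : ℤ)).map_surjective ψ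
      refine ⟨-χ, ?_⟩
      change f ≫ (-χ) = φ
      apply (shiftFunctor T (1 : ℤ)).map_injective
      rw [Functor.map_comp, Functor.map_neg, hχ]
      rw [hψ]
      simp
    · rintro ⟨ψ, rfl⟩
      have h0 : δ ≫ f⟦(1 : ℤ)⟧' = 0 := comp_distTriang_mor_zero₃₁ _ h
      change δ ≫ (f ≫ ψ)⟦(1 : ℤ)⟧' ≫ (e i).hom = 0
      rw [Functor.map_comp, Category.assoc, ← Category.assoc δ, h0, zero_comp]
  have hK : ∀ i, LinearMap.range (D i) = LinearMap.ker (P (i + 1)) := by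
    intro i
    ext φ
    rw [LinearMap.mem_ker, LinearMap.mem_range]
    constructor
    · rintro ⟨ψ, rfl⟩
      have h0 : g ≫ δ = 0 := comp_distTriang_mor_zero₂₃ _ h
      change g ≫ δ ≫ ψ⟦(1 : ℤ)⟧' ≫ (e i).hom = 0
      rw [← Category.assoc, h0, zero_comp]
    · intro hφ
      obtain ⟨ψ, hψ⟩ := Triangle.yoneda_exact₃ _ h φ hφ
      change A⟦(1 : ℤ)⟧ ⟶ Z⟦i + 1⟧ at ψ
      obtain ⟨χ, hχ⟩ := (shiftFunctor T (1 : ℤ)).map_surjective (ψ ≫ (e i).inv)
      refine ⟨χ, ?_⟩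
      change δ ≫ χ⟦(1 : ℤ)⟧' ≫ (e i).hom = φ
      rw [hχ, Category.assoc, Iso.inv_hom_id, Category.comp_id]
      exact hψ.symm
  obtain ⟨NB, hNB⟩ := hB.bdd
  obtain ⟨NC, hNC⟩ := hC.bdd
  unfold chi
  refine finsum_aux (p := fun i => Module.finrank ℂ (LinearMap.range (P i)))
    (q := fun i => Module.finrank ℂ (LinearMap.range (Q i)))
    (k := fun i => Module.finrank ℂ (LinearMap.ker (P i))) ?_ ?_ ?_ (max NB NC) ?_
  · intro i
    rw [← LinearMap.finrank_range_add_finrank_ker (D i), hK i, hD i]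
  · intro i
    rw [← LinearMap.finrank_range_add_finrank_ker (Q i), hPQ i]
  · intro i
    rw [← LinearMap.finrank_range_add_finrank_ker (P i)]
  · intro i hi
    have h1 : (NB : ℤ) ≤ |i| := le_trans (by exact_mod_cast le_max_left _ _) hi
    have h2 : (NC : ℤ) ≤ |i| := le_trans (by exact_mod_cast le_max_right _ _) hi
    constructor
    · haveI : Subsingleton (B ⟶ Z⟦i⟧) := ⟨fun x y => by rw [hNB i h1 x, hNB i h1 y]⟩
      exact Module.finrank_zero_of_subsingleton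
    · haveI : Subsingleton (C ⟶ Z⟦i⟧) := ⟨fun x y => by rw [hNC i h2 x, hNC i h2 y]⟩
      exact Module.finrank_zero_of_subsingleton

theorem chi_iso {A B : T} (e : A ≅ B) (Z : T) : chi A Z = chi B Z := by
  unfold chi
  refine finsum_congr fun i => ?_
  have h : Module.finrank ℂ (A ⟶ Z⟦i⟧) = Module.finrank ℂ (B ⟶ Z⟦i⟧) := by
    refine LinearEquiv.finrank_eq
      { toFun := fun φ => e.inv ≫ φ
        invFun := fun φ => e.hom ≫ φ
        map_add' := by intro φ ψ; simp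
        map_smul' := by intro r φ; simp
        left_inv := by intro φ; simp
        right_inv := by intro φ; simp }
  rw [h]

theorem chi_biproduct {r : ℕ} (Y : Fin r → T) (Z : T) (h : ∀ j, ExtFin (Y j) Z) :
    chi (⨁ Y) Z = ∑ j, chi (Y j) Z := by
  classical
  haveI := fun j => (h j).fin
  unfold chi
  have h1 : ∀ i : ℤ, Module.finrank ℂ ((⨁ Y) ⟶ Z⟦i⟧) =
      ∑ j, Module.finrank ℂ (Y j ⟶ Z⟦i⟧) := by
    intro i
    rw [← Module.finrank_pi_fintype ℂ]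
    refine LinearEquiv.finrank_eq
      { toFun := fun φ j => biproduct.ι Y j ≫ φ
        invFun := fun φ => biproduct.desc φ
        map_add' := by intro φ ψ; ext j; simp
        map_smul' := by intro r φ; ext j; simp
        left_inv := by intro φ; apply biproduct.hom_ext'; intro j; simp
        right_inv := by intro φ; ext j; simp }
  have h2 : ∀ i : ℤ, (Int.negOnePow i : ℤ) * (Module.finrank ℂ ((⨁ Y) ⟶ Z⟦i⟧) : ℤ) =
      ∑ j, (Int.negOnePow i : ℤ) * (Module.finrank ℂ (Y j ⟶ Z⟦i⟧) : ℤ) := by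
    intro i
    rw [h1 i]; push_cast; rw [Finset.mul_sum]
  rw [finsum_congr h2]
  refine finsum_sum_comm _ _ fun j _ => ?_
  obtain ⟨N, hN⟩ := (h j).bdd
  refine (Set.finite_Icc (-(N : ℤ)) N).subset ?_
  intro i hi
  by_contra hcon
  have h3 : (N : ℤ) ≤ |i| := by
    by_contra h4
    push Not at h4
    have := abs_lt.mp h4
    exact hcon ⟨by omega, by omega⟩
  haveI : Subsingleton (Y j ⟶ Z⟦i⟧) := ⟨fun x y => by rw [hN i h3 x, hN i h3 y]⟩
  exact hi (by simp [Module.finrank_zero_of_subsingleton])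

theorem chi_single {A B : T} (k : ℤ) (h : ∀ i : ℤ, i ≠ k → ∀ f : A ⟶ B⟦i⟧, f = 0) :
    chi A B = (Int.negOnePow k : ℤ) * (Module.finrank ℂ (A ⟶ B⟦k⟧) : ℤ) := by
  unfold chi
  refine finsum_eq_single _ k fun i hi => ?_
  haveI : Subsingleton (A ⟶ B⟦i⟧) := ⟨fun x y => by rw [h i hi x, h i hi y]⟩
  simp [Module.finrank_zero_of_subsingleton]

end Pool.Agent.H63.KH
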