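import Pool.Agent.H63.KH.Koz

/-!
# KH-8 EgIso (`A(a + 2m)/(u, v)` is a sum of point modules in large degrees)

Let `n₀ ≤ -a - 2m`. The maps `A(a)(m)(m) ⟶ ptMod (R.mem j) (R.ne j) n₀` which send `b ∈ A_(a+2m+d)`
to `b(y_j)` (`twistFree` and `freeHom` of the generator `1` in degree `-(a + 2m)`) vanish on the images
of `u` and `v` (`R.u_zero`, `R.v_zero`), so they induce `φ_j : Eg ⟶ ptMod` and
`φ = biproduct.lift φ_j : Eg ⟶ ⨁ ptMod`. Elements of `Eg_d` are classes of elements
`b ∈ A_(a+2m+d)` (two applications of `gr_surjective` for `cokernel.π`).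
Injective for large `d`: if `b(y_j) = 0` for all `j` then `b = u * b' + v * c'` by `R.span`, and its
class is zero. Surjective for large `d`: for each `j` there is a product `s_j` of linear forms that
vanishes at `y i` for `i ≠ j` and not at `y j` (`exists_separating`); multiply with an element of degree
`a + 2m + d - deg s_j ≥ 0` with a given value at `y j` (`exists_piece`), and sum over `j`.
The elements of `(⨁ ptMod)_d` are families of elements of `ptMod_d` (apply the additive functor `ev X d`,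
or use `∑ (π_j ≫ ι_j) = 𝟙`).
-/

namespace Pool.Agent.H63.KH

open CategoryTheory Limits H24.Ku MvPolynomial

variable {X : ProjData}

lemma exists_of_cokernel_π {M N : Gr X} (f : M ⟶ N) (d : Deg X) (x : N.obj.obj d)
    (hx : ((cokernel.π f).hom.app d).hom x = 0) : ∃ y : M.obj.obj d, (f.hom.app d).hom y = x :=
  (exact_iff (ShortComplex.mk f (cokernel.π f) (cokernel.condition f))).1
    (ShortComplex.exact_cokernel f) d x hx

lemma cokernel_π_apply {M N : Gr X} (f : M ⟶ N) (d : Deg X) (y : M.obj.obj d) :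
    ((cokernel.π f).hom.app d).hom ((f.hom.app d).hom y) = 0 :=
  congrArg (fun φ => (φ.hom.app d).hom y) (cokernel.condition f)

lemma kernel_ι_apply {M N : Gr X} (f : M ⟶ N) (d : Deg X) (x : (kernel f).obj.obj d) :
    (f.hom.app d).hom (((kernel.ι f).hom.app d).hom x) = 0 :=
  congrArg (fun φ => (φ.hom.app d).hom x) (kernel.condition f)

variable (X) in
/-- the graded module `A(a)(m)(m)` -/
noncomputable abbrev Tg (m a : ℤ) : Gr X := (twist X m).obj ((twist X m).obj (free X a))

/-- the element of `A` underlying an element of `A(a)(m)(m)` -/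
noncomputable def tval {m a : ℤ} {n : Deg X} (z : (Tg X m a).obj.obj n) : X.A :=
  (show ((⟨-a⟩ : Deg X) ⟶ ⟨n.deg + m + m⟩) from z).1

lemma tval_mem {m a : ℤ} {n : Deg X} (z : (Tg X m a).obj.obj n) :
    tval z ∈ X.piece (n.deg + m + m - (-a)) :=
  (show ((⟨-a⟩ : Deg X) ⟶ ⟨n.deg + m + m⟩) from z).2

lemma exists_tval {m a : ℤ} {n : Deg X} {b : X.A} (hb : b ∈ X.piece (n.deg + m + m - (-a))) :
    ∃ z : (Tg X m a).obj.obj n, tval z = b :=
  ⟨(⟨b, hb⟩ : ((⟨-a⟩ : Deg X) ⟶ ⟨n.deg + m + m⟩)), rfl⟩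

/-- the projection `A(a)(m)(m) ⟶ Eg` -/
noncomputable def qg {m : ℤ} (u v : X.piece m) (a : ℤ) : Tg X m a ⟶ Eg X u v a :=
  (twist X m).map (cokernel.π ((mulMap X m u).app (free X a))) ≫
    cokernel.π ((mulMap X m v).app (Cg X u a))

lemma qg_surjective {m : ℤ} (u v : X.piece m) (a : ℤ) (n : Deg X) :
    Function.Surjective ((qg u v a).hom.app n).hom := by
  intro w
  obtain ⟨w1, hw1⟩ := gr_surjective (cokernel.π ((mulMap X m v).app (Cg X u a))) n w
  obtain ⟨w2, hw2⟩ := gr_surjective (cokernel.π ((mulMap X m u).app (free X a))) ⟨n.deg + m⟩ w1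
  refine ⟨w2, ?_⟩
  change ((cokernel.π ((mulMap X m v).app (Cg X u a))).hom.app n).hom
    (((cokernel.π ((mulMap X m u).app (free X a))).hom.app ⟨n.deg + m⟩).hom w2) = w
  rw [← hw1]
  exact congrArg _ hw2

instance {m : ℤ} (u v : X.piece m) (a : ℤ) : Epi (qg u v a) :=
  gr_epi_of_surjective _ (qg_surjective u v a)

lemma qg_eq_zero_of {m : ℤ} (u v : X.piece m) (a : ℤ) (n : Deg X) (z : (Tg X m a).obj.obj n)
    (h : ∃ b ∈ X.piece (n.deg + m - (-a)), ∃ c ∈ X.piece (n.deg + m - (-a)),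
      tval z = u * b + v * c) : ((qg u v a).hom.app n).hom z = 0 := by
  obtain ⟨b, hb, c, hc, hz⟩ := h
  let b' : (free X a).obj.obj ⟨n.deg + m⟩ := (⟨b, hb⟩ : ((⟨-a⟩ : Deg X) ⟶ ⟨n.deg + m⟩))
  let c' : ((twist X m).obj (free X a)).obj.obj n :=
    (⟨c, hc⟩ : ((⟨-a⟩ : Deg X) ⟶ ⟨n.deg + m⟩))
  let zb : (Tg X m a).obj.obj n :=
    (((mulMap X m u).app (free X a)).hom.app ⟨n.deg + m⟩).hom b'
  let zc : (Tg X m a).obj.obj n :=
    (((mulMap X m v).app ((twist X m).obj (free X a))).hom.app n).hom c'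
  have h1 : z = zb + zc := by
    refine Subtype.ext (p := fun x : X.A => x ∈ X.piece (n.deg + m + m - (-a))) ?_
    refine (hz.trans ?_ : tval z = _)
    change u * b + v * c = b * u + c * v
    ring
  have h2 : ((qg u v a).hom.app n).hom zb = 0 := by
    change ((cokernel.π ((mulMap X m v).app (Cg X u a))).hom.app n).hom
      (((cokernel.π ((mulMap X m u).app (free X a))).hom.app ⟨n.deg + m⟩).hom
      ((((mulMap X m u).app (free X a)).hom.app ⟨n.deg + m⟩).hom b')) = 0
    refine (congrArg _ (cokernel_π_apply ((mulMap X m u).app (free X a)) ⟨n.deg + m⟩ b')).trans ?_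
    exact map_zero _
  have h3 : ((qg u v a).hom.app n).hom zc = 0 := by
    have h4 : (mulMap X m v).app ((twist X m).obj (free X a)) ≫ qg u v a = 0 := by
      rw [qg, ← Category.assoc]
      have h5 : (mulMap X m v).app ((twist X m).obj (free X a)) ≫
          (twist X m).map (cokernel.π ((mulMap X m u).app (free X a))) =
          cokernel.π ((mulMap X m u).app (free X a)) ≫ (mulMap X m v).app (Cg X u a) :=
        ((mulMap X m v).naturality (cokernel.π ((mulMap X m u).app (free X a)))).symm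
      rw [h5, Category.assoc, cokernel.condition, comp_zero]
    exact congrArg (fun φ => (φ.hom.app n).hom c') h4
  rw [h1, map_add, h2, h3, add_zero]

lemma exists_of_qg_eq_zero {m : ℤ} (u v : X.piece m) (a : ℤ) (n : Deg X)
    (z : (Tg X m a).obj.obj n) (h : ((qg u v a).hom.app n).hom z = 0) :
    ∃ b : X.A, ∃ c : X.A, tval z = u * b + v * c := by
  have h1 : ((cokernel.π ((mulMap X m v).app (Cg X u a))).hom.app n).hom
    (((cokernel.π ((mulMap X m u).app (free X a))).hom.app ⟨n.deg + m⟩).hom z) = 0 := h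
  obtain ⟨w, hw⟩ := exists_of_cokernel_π ((mulMap X m v).app (Cg X u a)) n _ h1
  obtain ⟨c, hc⟩ := gr_surjective (cokernel.π ((mulMap X m u).app (free X a))) n w
  -- c ∈ (twist (free a))_n
  let z' : ((twist X m).obj (free X a)).obj.obj ⟨n.deg + m⟩ := z
  let y' : ((twist X m).obj (free X a)).obj.obj ⟨n.deg + m⟩ :=
    (((mulMap X m v).app ((twist X m).obj (free X a))).hom.app n).hom c
  have h2 : (((cokernel.π ((mulMap X m u).app (free X a))).hom.app ⟨n.deg + m⟩).hom
      (z' - y')) = 0 := by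
    refine (map_sub _ z' y').trans ?_
    have h5 : (mulMap X m v).app ((twist X m).obj (free X a)) ≫
          (twist X m).map (cokernel.π ((mulMap X m u).app (free X a))) =
          cokernel.π ((mulMap X m u).app (free X a)) ≫ (mulMap X m v).app (Cg X u a) :=
        ((mulMap X m v).naturality (cokernel.π ((mulMap X m u).app (free X a)))).symm
    have h6 : ((cokernel.π ((mulMap X m u).app (free X a))).hom.app ⟨n.deg + m⟩).hom
        ((((mulMap X m v).app ((twist X m).obj (free X a))).hom.app n).hom c) =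
        (((mulMap X m v).app (Cg X u a)).hom.app n).hom
          (((cokernel.π ((mulMap X m u).app (free X a))).hom.app n).hom c) :=
      congrArg (fun φ => (φ.hom.app n).hom c) h5
    refine sub_eq_zero.2 ?_
    refine hw.symm.trans (Eq.trans ?_ h6.symm)
    exact congrArg _ hc.symm
  obtain ⟨b, hb⟩ := exists_of_cokernel_π ((mulMap X m u).app (free X a)) ⟨n.deg + m⟩ _ h2
  refine ⟨(show ((⟨-a⟩ : Deg X) ⟶ ⟨n.deg + m⟩) from b).1,
    (show ((⟨-a⟩ : Deg X) ⟶ ⟨n.deg + m⟩) from c).1, ?_⟩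
  let w' : ((twist X m).obj (free X a)).obj.obj ⟨n.deg + m⟩ :=
    (((mulMap X m u).app (free X a)).hom.app ⟨n.deg + m⟩).hom b
  have h7 : z' = w' + y' := sub_eq_iff_eq_add.1 hb.symm
  refine (congrArg (fun t : ((twist X m).obj (free X a)).obj.obj ⟨n.deg + m⟩ =>
    tval (m := m) (a := a) (n := n) t) h7).trans ?_
  change (show ((⟨-a⟩ : Deg X) ⟶ ⟨n.deg + m⟩) from b).1 * (u : X.A) +
    (show ((⟨-a⟩ : Deg X) ⟶ ⟨n.deg + m⟩) from c).1 * (v : X.A) = _
  rw [mul_comm, mul_comm (show ((⟨-a⟩ : Deg X) ⟶ ⟨n.deg + m⟩) from c).1]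

lemma evA_mem_tr {y : Fin (X.N + 1) → ℂ} (hy : ∀ p ∈ X.I, eval y p = 0) {m a : ℤ} {n : Deg X}
    (z : (Tg X m a).obj.obj n) : evA hy (tval z) ∈ tr (-a - 2 * m) n.deg := by
  by_cases h : -a - 2 * m ≤ n.deg
  · rw [tr_of_le h]
    exact Submodule.mem_top
  · rw [tr_of_lt (not_le.1 h), Submodule.mem_bot]
    rw [piece_neg (d := n.deg + m + m - (-a)) (by omega) (tval_mem z), map_zero]

/-- evaluation at the point `y`, as a morphism -/
noncomputable def evg {y : Fin (X.N + 1) → ℂ} (hy : ∀ p ∈ X.I, eval y p = 0) (hy0 : y ≠ 0)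
    (m a : ℤ) : Tg X m a ⟶ ptMod hy hy0 (-a - 2 * m) :=
  ObjectProperty.homMk
    { app := fun n => ModuleCat.ofHom (Y := (ptFun hy (-a - 2 * m)).obj n)
        { toFun := fun z : (Tg X m a).obj.obj n => (⟨evA hy (tval z), evA_mem_tr hy z⟩ :
            tr (-a - 2 * m) n.deg)
          map_add' := fun z z' => Subtype.ext (map_add (evA hy) (tval z) (tval z'))
          map_smul' := fun c z => Subtype.ext (evA_smul hy c (tval z)) }
      naturality := fun n l b => by
        ext z
        refine Subtype.ext ?_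
        change evA hy (tval z * b.1) = evA hy b.1 • evA hy (tval z)
        rw [map_mul, smul_eq_mul, mul_comm] }

lemma evg_apply {y : Fin (X.N + 1) → ℂ} (hy : ∀ p ∈ X.I, eval y p = 0) (hy0 : y ≠ 0)
    (m a : ℤ) (n : Deg X) (z : (Tg X m a).obj.obj n) :
    ((evg hy hy0 m a).hom.app n).hom z =
      (⟨evA hy (tval z), evA_mem_tr hy z⟩ : tr (-a - 2 * m) n.deg) := rfl

/-- elements of a biproduct are determined by their projections -/
lemma biproduct_elem_ext {r : ℕ} (M : Fin r → Gr X) (n : Deg X) (t t' : (⨁ M).obj.obj n)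
    (h : ∀ j, ((biproduct.π M j).hom.app n).hom t = ((biproduct.π M j).hom.app n).hom t') :
    t = t' := by
  have key : ∀ s : (⨁ M).obj.obj n, s = ∑ j, ((biproduct.ι M j).hom.app n).hom
      (((biproduct.π M j).hom.app n).hom s) := by
    intro s
    let E : ((⨁ M) ⟶ ⨁ M) →+ (⨁ M).obj.obj n :=
      { toFun := fun φ => (φ.hom.app n).hom s
        map_zero' := rfl
        map_add' := fun _ _ => rfl }
    have h1 := congrArg E (biproduct.total (f := M))
    rw [map_sum] at h1
    exact h1.symm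
  rw [key t, key t']
  exact Finset.sum_congr rfl fun j _ => congrArg _ (h j)

lemma prod_piece_one {ι : Type} [DecidableEq ι] (s : Finset ι) (f : ι → X.piece 1) :
    ∏ i ∈ s, (f i : X.A) ∈ X.piece (s.card : ℤ) := by
  induction s using Finset.induction_on with
  | empty =>
    rw [Finset.prod_empty, Finset.card_empty, Nat.cast_zero]
    exact ProjData.one_mem_piece
  | insert i s hi ih =>
    rw [Finset.prod_insert hi, Finset.card_insert_of_notMem hi]
    have h1 : ((s.card + 1 : ℕ) : ℤ) = 1 + (s.card : ℤ) := by push_cast; ring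
    rw [h1]
    exact ProjData.mul_mem_piece (f i).2 ih

/-- a form which vanishes at all points but one -/
lemma exists_sep {m : ℤ} (R : RTData X m) (j : Fin R.r) :
    ∃ s ∈ X.piece ((R.r : ℤ) - 1), evA (R.mem j) s ≠ 0 ∧
      ∀ i, i ≠ j → evA (R.mem i) s = 0 := by
  classical
  have h1 : ∀ i : Fin R.r, ∃ s : X.piece 1, i ≠ j → evA (R.mem i) s = 0 ∧ evA (R.mem j) s ≠ 0 := by
    intro i
    by_cases hi : i = j
    · exact ⟨0, fun h => absurd hi h⟩
    · obtain ⟨s, hs, hs'⟩ := exists_separating (R.mem i) (R.mem j) (R.ne i)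
        (R.distinct j i (Ne.symm hi))
      exact ⟨s, fun _ => ⟨hs, hs'⟩⟩
  choose f hf using h1
  have hcard : (((Finset.univ.erase j).card : ℕ) : ℤ) = (R.r : ℤ) - 1 := by
    rw [Finset.card_erase_of_mem (Finset.mem_univ j), Finset.card_univ, Fintype.card_fin]
    have : 1 ≤ R.r := Nat.one_le_iff_ne_zero.mpr fun h => by
      have := j.2
      omega
    push_cast [Nat.cast_sub this]
    ring
  refine ⟨∏ i ∈ Finset.univ.erase j, (f i : X.A), ?_, ?_, ?_⟩
  · rw [← hcard]
    exact prod_piece_one _ _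
  · rw [map_prod, Finset.prod_ne_zero_iff]
    intro i hi
    exact (hf i (Finset.ne_of_mem_erase hi)).2
  · intro i hi
    rw [map_prod]
    exact Finset.prod_eq_zero (Finset.mem_erase.2 ⟨hi, Finset.mem_univ i⟩) (hf i hi).1

/-- interpolation at the points `y j` -/
lemma exists_interp {m : ℤ} (R : RTData X m) (D : ℤ) (hD : (R.r : ℤ) - 1 ≤ D)
    (t : Fin R.r → ℂ) : ∃ b ∈ X.piece D, ∀ j, evA (R.mem j) b = t j := by
  classical
  choose s hs hs1 hs2 using exists_sep R
  have h1 : ∀ j, ∃ a ∈ X.piece (D - ((R.r : ℤ) - 1)),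
      evA (R.mem j) a = t j / evA (R.mem j) (s j) := fun j =>
    exists_piece (R.mem j) (R.ne j) _ (by omega) _
  choose a ha ha1 using h1
  refine ⟨∑ j, a j * s j, ?_, ?_⟩
  · refine Submodule.sum_mem _ fun j _ => ?_
    have := ProjData.mul_mem_piece (ha j) (hs j)
    rwa [sub_add_cancel] at this
  · intro j
    rw [map_sum, Finset.sum_eq_single j]
    · rw [map_mul, ha1, div_mul_cancel₀ _ (hs1 j)]
    · intro i _ hi
      rw [map_mul, hs2 i j (Ne.symm hi), mul_zero]
    · intro h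
      exact absurd (Finset.mem_univ j) h

theorem eg_iso {m : ℤ} (R : RTData X m) (a : ℤ) :
    ∃ (n₀ : ℤ) (φ : Eg X R.u R.v a ⟶ ⨁ fun j => ptMod (R.mem j) (R.ne j) n₀) (n₁ : ℤ),
      ∀ d : ℤ, n₁ ≤ d → Function.Bijective (φ.hom.app ⟨d⟩).hom := by
  classical
  have hker : ∀ j, kernel.ι (qg R.u R.v a) ≫ evg (R.mem j) (R.ne j) m a = 0 := by
    intro j
    apply gr_hom_ext
    intro n x
    obtain ⟨b, c, hbc⟩ := exists_of_qg_eq_zero R.u R.v a n _ (kernel_ι_apply (qg R.u R.v a) n x)
    refine Subtype.ext (p := fun x : ℂ => x ∈ tr (-a - 2 * m) n.deg) ?_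
    change evA (R.mem j) (tval (((kernel.ι (qg R.u R.v a)).hom.app n).hom x)) = 0
    rw [hbc, map_add, map_mul, map_mul, R.u_zero, R.v_zero, zero_mul, zero_mul, add_zero]
  let φj : ∀ j, Eg X R.u R.v a ⟶ ptMod (R.mem j) (R.ne j) (-a - 2 * m) := fun j =>
    Abelian.epiDesc (qg R.u R.v a) (evg (R.mem j) (R.ne j) m a) (hker j)
  have hφj : ∀ j, qg R.u R.v a ≫ φj j = evg (R.mem j) (R.ne j) m a := fun j =>
    Abelian.comp_epiDesc _ _ _
  have hπ : ∀ j, biproduct.lift φj ≫ biproduct.π _ j = φj j := fun j => biproduct.lift_π _ _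
  have happ : ∀ (j : Fin R.r) (n : Deg X) (z : (Tg X m a).obj.obj n),
      ((biproduct.π (fun j => ptMod (R.mem j) (R.ne j) (-a - 2 * m)) j).hom.app n).hom
        (((biproduct.lift φj).hom.app n).hom (((qg R.u R.v a).hom.app n).hom z)) =
      (⟨evA (R.mem j) (tval z), evA_mem_tr (R.mem j) z⟩ : tr (-a - 2 * m) n.deg) := by
    intro j n z
    have h1 := congrArg (fun φ => (φ.hom.app n).hom (((qg R.u R.v a).hom.app n).hom z)) (hπ j)
    have h2 := congrArg (fun φ => (φ.hom.app n).hom z) (hφj j)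
    exact h1.trans h2
  obtain ⟨n₂, hn₂⟩ := R.span
  refine ⟨-a - 2 * m, biproduct.lift φj,
    max (n₂ - 2 * m - a) (max (-a - 2 * m) ((R.r : ℤ) - 1 - 2 * m - a)), ?_⟩
  intro d hd
  have hd1 : n₂ ≤ d + m + m - (-a) := by
    have := le_trans (le_max_left _ _) hd
    omega
  have hd2 : -a - 2 * m ≤ d := le_trans (le_trans (le_max_left _ _) (le_max_right _ _)) hd
  have hd3 : (R.r : ℤ) - 1 ≤ d + m + m - (-a) := by
    have := le_trans (le_trans (le_max_right _ _) (le_max_right _ _)) hd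
    omega
  constructor
  · rw [injective_iff_map_eq_zero]
    intro w hw
    obtain ⟨z, rfl⟩ := qg_surjective R.u R.v a ⟨d⟩ w
    apply qg_eq_zero_of
    have hz : ∀ j, evA (R.mem j) (tval z) = 0 := by
      intro j
      have h1 := happ j ⟨d⟩ z
      rw [hw] at h1
      have h2 := congrArg Subtype.val (h1.symm.trans (map_zero _))
      exact h2
    obtain ⟨b, hb, c, hc, hbc⟩ := hn₂ _ hd1 (tval z) (tval_mem z) hz
    refine ⟨b, mem_piece_congr ?_ hb, c, mem_piece_congr ?_ hc, hbc⟩
    · change d + m + m - -a - m = d + m - -a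
      ring
    · change d + m + m - -a - m = d + m - -a
      ring
  · intro t
    obtain ⟨b, hb, hbt⟩ := exists_interp R (d + m + m - (-a)) hd3 (fun j =>
      (show tr (-a - 2 * m) d from ((biproduct.π (fun j => ptMod (R.mem j) (R.ne j)
        (-a - 2 * m)) j).hom.app ⟨d⟩).hom t).1)
    obtain ⟨z, hz⟩ := exists_tval (m := m) (a := a) (n := ⟨d⟩) hb
    refine ⟨((qg R.u R.v a).hom.app ⟨d⟩).hom z, ?_⟩
    apply biproduct_elem_ext
    intro j
    rw [happ]
    refine Subtype.ext (p := fun x : ℂ => x ∈ tr (-a - 2 * m) d) ?_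
    change evA (R.mem j) (tval z) = _
    rw [hz, hbt j]

end Pool.Agent.H63.KH
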