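import Pool.Agent.H63.KH.PtChi

/-!
# KH-15 KosAx (`HasKoszul` for `Db X`)
-/

namespace Pool.Agent.H63.KH

open CategoryTheory Limits Pretriangulated DerivedCategory H24.Ku KS KA

variable {X : ProjData}

lemma finrank_Sb (P Q : Coh X) :
    Module.finrank ℂ ((Sb X).obj P ⟶ (Sb X).obj Q) = Module.finrank ℂ (P ⟶ Q) :=
  (LinearEquiv.ofBijective ((Sb X).mapLinearMap ℂ)
    ⟨(Sb X).map_injective, (Sb X).map_surjective⟩ : (P ⟶ Q) ≃ₗ[ℂ] _).finrank_eq.symm

theorem isPoint_pt (hX : IsSmoothSurface X) (hC : CohFacts X) {m : ℤ} (R : RTData X m)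
    (j : Fin R.r) : IsPoint (On X) ((Sb X).obj (pt (R.mem j) (R.ne j))) := by
  obtain ⟨w, hw, hw1⟩ := exists_piece (R.mem j) (R.ne j) 1 (by norm_num) 1
  have hwi : IsIso ((cohMul X 1 ⟨w, hw⟩).app (pt (R.mem j) (R.ne j))) :=
    isIso_mul (R.mem j) (R.ne j) ⟨w, hw⟩ (by
      change evA (R.mem j) w ≠ 0
      rw [hw1]
      exact one_ne_zero)
  exact
    { left_zero := fun n i hi f => left_zero hC ⟨w, hw⟩ hwi (-n) i hi f
      left_one := fun n => by
        have h := (finrank_Sb (O X (-n)) (pt (R.mem j) (R.ne j))).trans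
          (finrank_hom (R.mem j) (R.ne j) (-n))
        exact h.le
      right_zero := fun n i hi f => pt_right_zero hX hC R j (-n) i hi f
      right_one := fun n => pt_right_one hX R j (-n)
      lift := fun n => pt_lift hX hC R j (-n)
      chi_self := pt_chi_self hX hC R j
      chi_ne := by
        obtain ⟨t, ht⟩ := pt_chi_ne hX hC R j
        exact ⟨_, ht⟩ }

lemma Sb_zero_of {P P' Q : Coh X} {i : ℤ}
    (h : ∀ f : (S X).obj P ⟶ ((S X).obj Q)⟦i⟧, f = 0) (e : P' ≅ P)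
    (f : (Sb X).obj P' ⟶ ((Sb X).obj Q)⟦i⟧) : f = 0 := by
  have h1 : (Sb X).map e.inv ≫ f = 0 := by
    apply HD.injective
    rw [map_zero]
    exact h _
  have h2 : f = (Sb X).map e.hom ≫ (Sb X).map e.inv ≫ f := by
    rw [← Category.assoc, ← Functor.map_comp, e.hom_inv_id, CategoryTheory.Functor.map_id,
      Category.id_comp]
  rw [h2, h1, comp_zero]

theorem hasKoszul (hX : IsSmoothSurface X) (hC : CohFacts X) : HasKoszul (On X) := by
  refine ⟨fun n => ?_⟩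
  obtain ⟨n₀, hn₀⟩ := hC.serre (O X (-n))
  obtain ⟨m, hm1, hm2⟩ : ∃ m : ℤ, 1 ≤ m ∧ n₀ ≤ n + m := ⟨max 1 (n₀ - n), by omega, by omega⟩
  obtain ⟨R⟩ := exists_rtData hX m hm1
  let a : ℤ := -n - 2 * m
  have hu := koz_mono_u hX.prime R.u_ne a
  have hv := koz_mono_v R a
  -- the three short exact sequences
  let T₁ : ShortComplex (Coh X) := ShortComplex.mk ((cohMul X m R.u).app (O X a))
    (cokernel.π _) (cokernel.condition _)
  have hT₁ : T₁.ShortExact := { exact := ShortComplex.exact_cokernel _ }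
  have hT₂ := hT₁.map_of_exact (cohTwist X m)
  let e₁ : (cohTwist X m).obj (O X a) ≅ O X (-(n + m)) :=
    cohTwistO X a m (-(n + m)) (by change -n - 2 * m + m = _; ring)
  let e : (T₁.map (cohTwist X m)).X₂ ≅ O X (-n) :=
    (cohTwist X m).mapIso e₁ ≪≫ cohTwistO X (-(n + m)) m (-n) (by ring)
  let T₂ : ShortComplex (Coh X) := ShortComplex.mk ((T₁.map (cohTwist X m)).f ≫ e.hom)
    (e.inv ≫ (T₁.map (cohTwist X m)).g) (by
      rw [Category.assoc, Iso.hom_inv_id_assoc]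
      exact (T₁.map (cohTwist X m)).zero)
  let j₂ : T₁.map (cohTwist X m) ≅ T₂ := ShortComplex.isoMk (Iso.refl _) e (Iso.refl _)
    (Category.id_comp _)
    ((Iso.hom_inv_id_assoc e (T₁.map (cohTwist X m)).g).trans (Category.comp_id _).symm)
  have hT₂' : T₂.ShortExact := ShortComplex.shortExact_of_iso j₂ hT₂
  let T₃ : ShortComplex (Coh X) := ShortComplex.mk ((cohMul X m R.v).app (Dk X R.u a))
    (cokernel.π _) (cokernel.condition _)
  have hT₃ : T₃.ShortExact := { exact := ShortComplex.exact_cokernel _ }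
  obtain ⟨b', hb'⟩ := Sb_tri hT₁
  obtain ⟨b, hb⟩ := Sb_tri hT₂'
  obtain ⟨d, hd⟩ := Sb_tri hT₃
  obtain ⟨i₀⟩ := koz_iso R a
  refine ⟨(Sb X).obj T₂.X₁, (Sb X).obj (O X a), (Sb X).obj T₂.X₃, (Sb X).obj (Dk X R.u a),
    (Sb X).obj (Pk X R.u R.v a), (Sb X).map T₂.f, (Sb X).map T₂.g, b, (Sb X).map T₁.f,
    (Sb X).map T₁.g, b', (Sb X).map T₃.f, (Sb X).map T₃.g, d, R.r,
    fun j => (Sb X).obj (pt (R.mem j) (R.ne j)), hb, hb', hd, ?_, ?_, ⟨?_⟩,
    fun j => isPoint_pt hX hC R j⟩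
  · exact Sb_zero_of (hn₀ (n + m) hm2 2 (by norm_num)) e₁
  · exact Sb_zero_of (hn₀ (n + 2 * m) (by omega) 1 le_rfl)
      (eqToIso (congrArg (O X) (by change -n - 2 * m = _; ring)))
  · exact (Sb X).mapIso i₀ ≪≫ (Sb X).mapBiproduct _

end Pool.Agent.H63.KH
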