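import Pool.Agent.H63.KH.PtCoh

/-!
# KH-6 Koz (Koszul presentation of a sum of points: definitions, passage to graded modules)

`Dk X u a` = cokernel of `u : O(a) ⟶ O(a)(m)`, `Pk X u v a` = cokernel of `v : D ⟶ D(m)`; on graded
modules `Cg X u a` = cokernel of `u : A(a) ⟶ A(a)(m)`, `Eg X u v a` = cokernel of `v : C ⟶ C(m)`.
* `sheaf_cokernel_mul`: `(sheaf X)` is exact, so `(sheaf X).obj (cokernel f) ≅ cokernel
((sheaf X).map f)` (`PreservesCokernel.iso`); `cohMul_app_sheaf` and `cohTwistIso` give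
`cokernel ((cohMul X m s).app ((sheaf X).obj M))` (cokernels of maps which differ by an isomorphism of
the target, `cokernelCompIsIso`, `cokernel.mapIso`), and naturality of `cohMul X m s` along `e`.
* `mono_cohMul_iff`: `cohMul_app_sheaf` and naturality of `cohMul X m s` along `e`.
* `koz_mono_u`: `mono_cohMul_iff` (`e = Iso.refl`), `mono_sheaf_map_iff`: multiplication with `u ≠ 0`
is injective on the domain `A`.
-/

namespace Pool.Agent.H63.KH

open CategoryTheory Limits H24.Ku MvPolynomial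

variable (X : ProjData)

/-- the sheaf `O(a + m)/u O(a)` -/
noncomputable abbrev Dk {m : ℤ} (u : X.piece m) (a : ℤ) : Coh X :=
  cokernel ((cohMul X m u).app (O X a))

/-- the sheaf `O(a + 2m)/(u, v)` -/
noncomputable abbrev Pk {m : ℤ} (u v : X.piece m) (a : ℤ) : Coh X :=
  cokernel ((cohMul X m v).app (Dk X u a))

/-- the graded module `A(a + m)/u A(a)` -/
noncomputable abbrev Cg {m : ℤ} (u : X.piece m) (a : ℤ) : Gr X :=
  cokernel ((mulMap X m u).app (free X a))

/-- the graded module `A(a + 2m)/(u, v)` -/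
noncomputable abbrev Eg {m : ℤ} (u v : X.piece m) (a : ℤ) : Gr X :=
  cokernel ((mulMap X m v).app (Cg X u a))

variable {X}

theorem mul_comm_iso {m : ℤ} (s : X.piece m) {M : Gr X} {Q : Coh X}
    (e : (sheaf X).obj M ≅ Q) :
    (sheaf X).map ((mulMap X m s).app M) ≫
      ((cohTwistIso X m).symm.app M ≪≫ (cohTwist X m).mapIso e).hom =
      e.hom ≫ (cohMul X m s).app Q := by
  refine Eq.trans ?_ ((cohMul X m s).naturality e.hom).symm
  refine Eq.trans ?_ (congrArg (fun t => t ≫ (cohTwist X m).map e.hom)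
    (cohMul_app_sheaf X m s M).symm)
  exact (Category.assoc _ _ _).symm

theorem sheaf_cokernel_mul {m : ℤ} (s : X.piece m) {M : Gr X} {Q : Coh X}
    (e : (sheaf X).obj M ≅ Q) :
    Nonempty ((sheaf X).obj (cokernel ((mulMap X m s).app M)) ≅
      cokernel ((cohMul X m s).app Q)) :=
  ⟨PreservesCokernel.iso (sheaf X) ((mulMap X m s).app M) ≪≫
    cokernel.mapIso _ _ e _ (mul_comm_iso s e)⟩

theorem mono_cohMul_iff {m : ℤ} (s : X.piece m) {M : Gr X} {Q : Coh X}
    (e : (sheaf X).obj M ≅ Q) :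
    Mono ((cohMul X m s).app Q) ↔ Mono ((sheaf X).map ((mulMap X m s).app M)) := by
  have h := mul_comm_iso s e
  constructor
  · intro h1
    have h2 : Mono ((sheaf X).map ((mulMap X m s).app M) ≫
        ((cohTwistIso X m).symm.app M ≪≫ (cohTwist X m).mapIso e).hom) := by
      rw [h]
      exact mono_comp _ _
    exact mono_of_mono _ ((cohTwistIso X m).symm.app M ≪≫ (cohTwist X m).mapIso e).hom
  · intro h1
    have h2 : Mono (e.hom ≫ (cohMul X m s).app Q) := by
      rw [← h]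
      exact mono_comp _ _
    have h3 : (cohMul X m s).app Q = e.inv ≫ (e.hom ≫ (cohMul X m s).app Q) :=
      (e.inv_hom_id_assoc _).symm
    rw [h3]
    exact mono_comp _ _

theorem koz_mono_u (hI : X.I.IsPrime) {m : ℤ} {u : X.piece m} (hu : (u : X.A) ≠ 0) (a : ℤ) :
    Mono ((cohMul X m u).app (O X a)) := by
  rw [mono_cohMul_iff u (Iso.refl (O X a)), mono_sheaf_map_iff]
  refine ⟨0, fun k _ => ?_⟩
  have hdom : IsDomain X.A := Ideal.Quotient.isDomain X.I
  intro z w hzw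
  have h1 : ∀ x : (⟨-a⟩ : Deg X) ⟶ ⟨k⟩,
      (((((mulMap X m u).app (free X a)).hom.app ⟨k⟩).hom x :
        (⟨-a⟩ : Deg X) ⟶ ⟨k + m⟩)).1 = x.1 * u.1 := fun x => rfl
  have h2 : (z : (⟨-a⟩ : Deg X) ⟶ ⟨k⟩).1 * u.1 = (w : (⟨-a⟩ : Deg X) ⟶ ⟨k⟩).1 * u.1 := by
    rw [← h1, ← h1]
    exact congrArg (fun t : ((⟨-a⟩ : Deg X) ⟶ ⟨k + m⟩) => t.1) hzw
  exact Subtype.ext (mul_right_cancel₀ hu h2)

end Pool.Agent.H63.KH
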