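import Pool.Agent.H63.KH.Koz

/-!
# KH-7 KozV (`v` is injective on `O(a + m)/u O(a)`)

`Dk X R.u a ≅ (sheaf X).obj (Cg X R.u a)` (`sheaf_cokernel_mul`), so by `mono_cohMul_iff` and
`mono_sheaf_map_iff` enough: multiplication with `R.v` on `C = Cg X R.u a` is injective in large
degrees. The elements of `C_d` are the images of elements `b` of `((twist X m).obj (free X a))_d`, i.e.
`b ∈ A_(a+m+d)` (`gr_surjective` for `cokernel.π`), and an element `b'` has image zero in `C` iff it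
is `u * c` (`exact_iff` of `Ev.lean` for the exact sequence `M ⟶ M(m) ⟶ cokernel`). If `v * b = u * c`
then `b = u * b'` by `R.reg` in large degrees.
-/

namespace Pool.Agent.H63.KH

open CategoryTheory Limits H24.Ku MvPolynomial

variable {X : ProjData}

theorem koz_mono_v {m : ℤ} (R : RTData X m) (a : ℤ) :
    Mono ((cohMul X m R.v).app (Dk X R.u a)) := by
  obtain ⟨e⟩ := sheaf_cokernel_mul R.u (M := free X a) (Q := O X a) (Iso.refl _)
  rw [mono_cohMul_iff R.v e, mono_sheaf_map_iff]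
  obtain ⟨n₁, hreg⟩ := R.reg
  refine ⟨n₁ - m - a, fun d hd => ?_⟩
  rw [injective_iff_map_eq_zero]
  intro x hx
  let f := (mulMap X m R.u).app (free X a)
  have hex := (exact_iff _).1 (ShortComplex.exact_cokernel f)
  obtain ⟨b, rfl⟩ := gr_surjective (cokernel.π f) ⟨d⟩ x
  -- `b : A_(a+m+d)`
  have hb : (b : (⟨-a⟩ : Deg X) ⟶ ⟨d + m⟩).1 ∈ X.piece (d + m + a) :=
    mem_piece_congr (show (d + m) - (-a) = d + m + a by ring) (b : (⟨-a⟩ : Deg X) ⟶ ⟨d + m⟩).2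
  -- the product
  have h1 := (gr_naturality (cokernel.π f) ((degMul X m R.v).app ⟨d⟩) b).trans hx
  obtain ⟨c, hc⟩ := hex ((degShift X m).obj ⟨d⟩) _ h1
  have hc1 : (c : (⟨-a⟩ : Deg X) ⟶ ⟨d + m⟩).1 ∈ X.piece (d + m + a) :=
    mem_piece_congr (show (d + m) - (-a) = d + m + a by ring) (c : (⟨-a⟩ : Deg X) ⟶ ⟨d + m⟩).2
  have h2 : (c : (⟨-a⟩ : Deg X) ⟶ ⟨d + m⟩).1 * (R.u : X.A) =
      (b : (⟨-a⟩ : Deg X) ⟶ ⟨d + m⟩).1 * (R.v : X.A) :=
    congrArg (fun z : (⟨-a⟩ : Deg X) ⟶ ⟨d + m + m⟩ => z.1) hc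
  obtain ⟨b', hb', hbb⟩ := hreg (d + m + a) (by omega) _ hb _ hc1 (by
    rw [mul_comm, ← h2, mul_comm])
  have h3 : (f.hom.app ⟨d⟩).hom
      (⟨b', mem_piece_congr (show d + m + a - m = d - -a by ring) hb'⟩ : (⟨-a⟩ : Deg X) ⟶ ⟨d⟩) = b := by
    refine Subtype.ext ?_
    change b' * (R.u : X.A) = _
    rw [mul_comm, ← hbb]
  rw [← h3]
  exact congrArg (fun g => (g.hom.app ⟨d⟩).hom
    (⟨b', mem_piece_congr (show d + m + a - m = d - -a by ring) hb'⟩ : (⟨-a⟩ : Deg X) ⟶ ⟨d⟩)) (cokernel.condition f)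

end Pool.Agent.H63.KH
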