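import Pool.Agent.H63.KH.EgIso
import Pool.Agent.H63.KH.KozV

/-!
# KH-9 KozIso (`O(a + 2m)/(u, v)` is a direct sum of skyscraper sheaves)

`Pk X R.u R.v a ≅ (sheaf X).obj (Eg X R.u R.v a)`: `sheaf_cokernel_mul` twice (first with
`M = free X a`, `Q = O X a`, `e = Iso.refl`, then with `M = Cg X R.u a`, `Q = Dk X R.u a`). `eg_iso` and
`isIso_sheaf_map_iff'` give `(sheaf X).obj Eg ≅ (sheaf X).obj (⨁ ptMod)`, the additive functor `sheaf X`
commutes with biproducts (`Functor.mapBiproduct`), and `pt_trunc` (`biproduct.mapIso`).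
-/

namespace Pool.Agent.H63.KH

open CategoryTheory Limits H24.Ku MvPolynomial

variable {X : ProjData}

theorem koz_iso {m : ℤ} (R : RTData X m) (a : ℤ) :
    Nonempty (Pk X R.u R.v a ≅ ⨁ fun j => pt (R.mem j) (R.ne j)) := by
  obtain ⟨e1⟩ := sheaf_cokernel_mul (M := free X a) (Q := O X a) R.u (Iso.refl _)
  obtain ⟨e2⟩ := sheaf_cokernel_mul (M := Cg X R.u a) (Q := Dk X R.u a) R.v e1
  obtain ⟨n₀, φ, n₁, hφ⟩ := eg_iso R a
  have h : IsIso ((sheaf X).map φ) := (isIso_sheaf_map_iff' φ).2 ⟨n₁, hφ⟩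
  exact ⟨e2.symm ≪≫ asIso ((sheaf X).map φ) ≪≫ (sheaf X).mapBiproduct _ ≪≫
    biproduct.mapIso (fun j => (pt_trunc (R.mem j) (R.ne j) n₀).some)⟩

end Pool.Agent.H63.KH
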