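import Pool.Agent.H63.KH.Sb

/-!
# KH-1 Les (long exact sequences of `Hom` for short exact sequences of coherent sheaves)

Let `δ` be as in `Sb_tri`: `Triangle.mk ((Sb X).map T.f) ((Sb X).map T.g) δ` is distinguished.
`les_tgt`: `φ g = g ≫ δ⟦j⟧' ≫ (shiftFunctorAdd' (Db X) 1 j i _).inv.app _` (up to the order of the
summands); exactness: `Triangle.coyoneda_exact₁`/`₃` for the shifted triangle
(`Triangle.shift_distinguished`; the signs `(-1)^j` in the shifted triangle do not matter), or shift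
the morphism to `Z⟦-j⟧ ⟶ ...`.
`les_tgt₂`: `Triangle.coyoneda_exact₂` for the triangle shifted by `i`.
`les_src`: `(Sb X).map T.g ≫ f = 0`, so `f = δ ≫ f'` with `f' : ((Sb X).obj T.X₁)⟦1⟧ ⟶ Z⟦i⟧`
(`Triangle.yoneda_exact₃`); `f'⟦-1⟧'` is up to isomorphism a map `(Sb X).obj T.X₁ ⟶ Z⟦j⟧`, so zero.
-/

namespace Pool.Agent.H63.KH

open CategoryTheory Limits Pretriangulated DerivedCategory H24.Ku KS

section Gen

variable {D : Type*} [Category D] [Preadditive D] [HasZeroObject D] [HasShift D ℤ]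
  [∀ n : ℤ, (shiftFunctor D n).Additive] [Pretriangulated D]

omit [HasZeroObject D] [HasShift D ℤ] [∀ n : ℤ, (shiftFunctor D n).Additive]
  [Pretriangulated D] in
lemma gen_units {P Q R : D} (n : ℤˣ) (f : P ⟶ Q) (g : Q ⟶ R) (h : f ≫ g = 0) :
    f ≫ (n • g) = 0 := by
  rw [Linear.comp_units_smul, h, smul_zero]

omit [HasZeroObject D] [HasShift D ℤ] [∀ n : ℤ, (shiftFunctor D n).Additive]
  [Pretriangulated D] in
lemma gen_units' {P Q R : D} (n : ℤˣ) (f : P ⟶ Q) (g : Q ⟶ R) :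
    f ≫ (n • g) = (n • f) ≫ g := by
  rw [Linear.comp_units_smul, Linear.units_smul_comp]

omit [Preadditive D] [HasZeroObject D] [∀ n : ℤ, (shiftFunctor D n).Additive] [Pretriangulated D] in
lemma gen_comm (A : D) (j i : ℤ) (hij : 1 + j = i) :
    (shiftFunctorComm D 1 j).hom.app A =
      (shiftFunctorAdd' D 1 j i hij).inv.app A ≫
        (shiftFunctorAdd' D j 1 i (by rw [add_comm]; exact hij)).hom.app A := by
  rw [shiftFunctorComm_eq D 1 j i hij]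
  rfl

lemma gen3 {A B C : D} {f : A ⟶ B} {g : B ⟶ C} {δ : C ⟶ A⟦(1 : ℤ)⟧}
    (hT : Triangle.mk f g δ ∈ distTriang D) (Z : D) (j : ℤ) (w : Z ⟶ C⟦j⟧)
    (hw : w ≫ δ⟦j⟧' = 0) : ∃ h : Z ⟶ B⟦j⟧, h ≫ g⟦j⟧' = w := by
  have hT' := Triangle.shift_distinguished _ hT j
  have h0 : w ≫ (j.negOnePow • δ⟦j⟧' ≫ (shiftFunctorComm D 1 j).hom.app A) = 0 := by
    apply gen_units
    rw [← Category.assoc, hw, zero_comp]
  obtain ⟨h, hh⟩ : ∃ h : Z ⟶ B⟦j⟧, w = h ≫ (j.negOnePow • g⟦j⟧') :=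
    Triangle.coyoneda_exact₃ _ hT' w h0
  refine ⟨j.negOnePow • h, ?_⟩
  rw [← gen_units']
  exact hh.symm

lemma gen2 {A B C : D} {f : A ⟶ B} {g : B ⟶ C} {δ : C ⟶ A⟦(1 : ℤ)⟧}
    (hT : Triangle.mk f g δ ∈ distTriang D) (Z : D) (j : ℤ) (w : Z ⟶ B⟦j⟧)
    (hw : w ≫ g⟦j⟧' = 0) : ∃ h : Z ⟶ A⟦j⟧, h ≫ f⟦j⟧' = w := by
  have hT' := Triangle.shift_distinguished _ hT j
  have h0 : w ≫ (j.negOnePow • g⟦j⟧') = 0 := gen_units _ _ _ hw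
  obtain ⟨h, hh⟩ : ∃ h : Z ⟶ A⟦j⟧, w = h ≫ (j.negOnePow • f⟦j⟧') :=
    Triangle.coyoneda_exact₂ _ hT' w h0
  refine ⟨j.negOnePow • h, ?_⟩
  rw [← gen_units']
  exact hh.symm

lemma gen1 {A B C : D} {f : A ⟶ B} {g : B ⟶ C} {δ : C ⟶ A⟦(1 : ℤ)⟧}
    (hT : Triangle.mk f g δ ∈ distTriang D) (Z : D) (j i : ℤ) (hij : 1 + j = i)
    (u : Z ⟶ A⟦i⟧) (hu : u ≫ f⟦i⟧' = 0) :
    ∃ w : Z ⟶ C⟦j⟧, w ≫ δ⟦j⟧' ≫ (shiftFunctorAdd' D 1 j i hij).inv.app A = u := by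
  have hT' := Triangle.shift_distinguished _ hT j
  have hji : j + 1 = i := by rw [add_comm]; exact hij
  have hnat : (shiftFunctorAdd' D j 1 i hji).hom.app A ≫ (f⟦j⟧')⟦(1 : ℤ)⟧' =
      f⟦i⟧' ≫ (shiftFunctorAdd' D j 1 i hji).hom.app B :=
    ((shiftFunctorAdd' D j 1 i hji).hom.naturality f).symm
  have h0 : (u ≫ (shiftFunctorAdd' D j 1 i hji).hom.app A) ≫
      ((j.negOnePow • f⟦j⟧'))⟦(1 : ℤ)⟧' = 0 := by
    rw [Functor.map_units_smul]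
    apply gen_units
    rw [Category.assoc, hnat, ← Category.assoc, hu, zero_comp]
  obtain ⟨h, hh'⟩ : ∃ h : Z ⟶ C⟦j⟧, u ≫ (shiftFunctorAdd' D j 1 i hji).hom.app A =
      h ≫ (j.negOnePow • δ⟦j⟧' ≫ (shiftFunctorComm D 1 j).hom.app A) :=
    Triangle.coyoneda_exact₁ _ hT' (u ≫ (shiftFunctorAdd' D j 1 i hji).hom.app A) h0
  refine ⟨j.negOnePow • h, ?_⟩
  rw [← cancel_mono ((shiftFunctorAdd' D j 1 i hji).hom.app A), hh', gen_comm A j i hij,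
    gen_units', Category.assoc, Category.assoc]

lemma gen_src {A B C : D} {f : A ⟶ B} {g : B ⟶ C} {δ : C ⟶ A⟦(1 : ℤ)⟧}
    (hT : Triangle.mk f g δ ∈ distTriang D) (Z : D) (j i : ℤ) (hij : j + 1 = i)
    (h2 : ∀ u : B ⟶ Z⟦i⟧, u = 0) (h1 : ∀ u : A ⟶ Z⟦j⟧, u = 0) (u : C ⟶ Z⟦i⟧) : u = 0 := by
  obtain ⟨v, hv'⟩ : ∃ v : A⟦(1 : ℤ)⟧ ⟶ Z⟦i⟧, u = δ ≫ v := Triangle.yoneda_exact₃ _ hT u (h2 _)
  obtain ⟨w, hw⟩ : ∃ w : A ⟶ Z⟦j⟧, (shiftFunctor D (1 : ℤ)).map w =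
      v ≫ (shiftFunctorAdd' D j 1 i hij).hom.app Z := (shiftFunctor D (1 : ℤ)).map_surjective _
  have hv0 : v = 0 := by
    rw [← cancel_mono ((shiftFunctorAdd' D j 1 i hij).hom.app Z), zero_comp, ← hw, h1 w,
      Functor.map_zero]
  rw [hv', hv0, comp_zero]

end Gen

variable {X : ProjData}

theorem les_tgt {T : ShortComplex (Coh X)} (hT : T.ShortExact) (Z : Db X) (j i : ℤ)
    (hij : j + 1 = i) :
    ∃ φ : (Z ⟶ ((Sb X).obj T.X₃)⟦j⟧) →ₗ[ℂ] (Z ⟶ ((Sb X).obj T.X₁)⟦i⟧),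
      (∀ f, f ≫ ((Sb X).map T.f)⟦i⟧' = 0 → ∃ g, φ g = f) ∧
      (∀ g, φ g = 0 → ∃ h, h ≫ ((Sb X).map T.g)⟦j⟧' = g) := by
  obtain ⟨δ, hδ⟩ := Sb_tri hT
  have hij' : 1 + j = i := by rw [add_comm]; exact hij
  refine ⟨Linear.rightComp ℂ Z
    (δ⟦j⟧' ≫ (shiftFunctorAdd' (Db X) 1 j i hij').inv.app ((Sb X).obj T.X₁)), ?_, ?_⟩
  · intro f hf
    exact gen1 hδ Z j i hij' f hf
  · intro g hg
    refine gen3 hδ Z j g ?_
    have hg' : g ≫ (δ⟦j⟧' ≫ (shiftFunctorAdd' (Db X) 1 j i hij').inv.app ((Sb X).obj T.X₁)) = 0 :=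
      hg
    have hg'' : (g ≫ δ⟦j⟧') ≫ (shiftFunctorAdd' (Db X) 1 j i hij').inv.app ((Sb X).obj T.X₁) =
        0 ≫ (shiftFunctorAdd' (Db X) 1 j i hij').inv.app ((Sb X).obj T.X₁) := by
      rw [zero_comp]
      exact (Category.assoc _ _ _).trans hg'
    exact (cancel_mono _).1 hg''

theorem les_tgt₂ {T : ShortComplex (Coh X)} (hT : T.ShortExact) (Z : Db X) (i : ℤ)
    (f : Z ⟶ ((Sb X).obj T.X₂)⟦i⟧) (hf : f ≫ ((Sb X).map T.g)⟦i⟧' = 0) :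
    ∃ g, g ≫ ((Sb X).map T.f)⟦i⟧' = f := by
  obtain ⟨δ, hδ⟩ := Sb_tri hT
  exact gen2 hδ Z i f hf

theorem les_src {T : ShortComplex (Coh X)} (hT : T.ShortExact) (Z : Db X) (j i : ℤ)
    (hij : j + 1 = i) (h2 : ∀ f : (Sb X).obj T.X₂ ⟶ Z⟦i⟧, f = 0)
    (h1 : ∀ f : (Sb X).obj T.X₁ ⟶ Z⟦j⟧, f = 0) (f : (Sb X).obj T.X₃ ⟶ Z⟦i⟧) : f = 0 := by
  obtain ⟨δ, hδ⟩ := Sb_tri hT
  exact gen_src hδ Z j i hij h2 h1 f

end Pool.Agent.H63.KH
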