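import Pool.Agent.H63.KH.Sb

/-!
# KH-10 MulD (multiplication by a section which is invertible on `Q`)

`μ := (cohMul X d s).app Q` is an isomorphism.
* `mul_src_bij`: by `twb_mul`, `(Sb X).map ((cohMul X d s).app P) ≫ twb d f = f ≫ ((Sb X).map μ)⟦i⟧'`
for `f : Sb P ⟶ (Sb Q)⟦i⟧`; so the map is the inverse of the bijection
`f ↦ twb d f ≫ inv (((Sb X).map μ)⟦i⟧')`.
* `mul_tgt_bij`: `f ≫ ((Sb X).map ((cohMul X d s).app P))⟦i⟧' = (Sb X).map μ ≫ twb d f`.
* `orth`: `f ≫ ((Sb X).map μ')⟦i⟧' = (Sb X).map 0 ≫ twb d f = 0` and `μ'` is invertible.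
-/

namespace Pool.Agent.H63.KH

open CategoryTheory Limits Pretriangulated DerivedCategory H24.Ku KS

variable {X : ProjData}

theorem mul_src_bij {Q : Coh X} {d : ℤ} (s : X.piece d) (hs : IsIso ((cohMul X d s).app Q))
    (P : Coh X) (i : ℤ) :
    Function.Bijective (fun g : (Sb X).obj ((cohTwist X d).obj P) ⟶ ((Sb X).obj Q)⟦i⟧ =>
      (Sb X).map ((cohMul X d s).app P) ≫ g) := by
  let m := ((Sb X).map ((cohMul X d s).app Q))⟦i⟧'
  have hm : IsIso m := inferInstance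
  let Ψ : ((Sb X).obj P ⟶ ((Sb X).obj Q)⟦i⟧) →
      ((Sb X).obj ((cohTwist X d).obj P) ⟶ ((Sb X).obj Q)⟦i⟧) := fun f => twb d f ≫ inv m
  have hΨ : Function.Bijective Ψ := by
    constructor
    · intro f g h
      exact (twb d).injective ((cancel_mono (inv m)).1 h)
    · intro g
      obtain ⟨f, hf⟩ := (twb d (P := P) (Q := Q) (i := i)).surjective (g ≫ m)
      refine ⟨f, ?_⟩
      change twb d f ≫ inv m = g
      rw [hf, Category.assoc, IsIso.hom_inv_id]
      exact Category.comp_id _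
  refine (Function.Bijective.of_comp_iff _ hΨ).1 ?_
  have h : (fun g : (Sb X).obj ((cohTwist X d).obj P) ⟶ ((Sb X).obj Q)⟦i⟧ =>
      (Sb X).map ((cohMul X d s).app P) ≫ g) ∘ Ψ = id := by
    funext f
    change (Sb X).map ((cohMul X d s).app P) ≫ twb d f ≫ inv m = f
    rw [← Category.assoc, twb_mul, Category.assoc, IsIso.hom_inv_id]
    exact Category.comp_id _
  rw [h]
  exact Function.bijective_id

theorem mul_tgt_bij {Q : Coh X} {d : ℤ} (s : X.piece d) (hs : IsIso ((cohMul X d s).app Q))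
    (P : Coh X) (i : ℤ) :
    Function.Bijective (fun f : (Sb X).obj Q ⟶ ((Sb X).obj P)⟦i⟧ =>
      f ≫ ((Sb X).map ((cohMul X d s).app P))⟦i⟧') := by
  have h : (fun f : (Sb X).obj Q ⟶ ((Sb X).obj P)⟦i⟧ =>
      f ≫ ((Sb X).map ((cohMul X d s).app P))⟦i⟧') =
      fun f => (Sb X).map ((cohMul X d s).app Q) ≫ twb d f := by
    funext f
    rw [twb_mul]
  rw [h]
  constructor
  · intro f g hfg
    exact (twb d).injective ((cancel_epi _).1 hfg)
  · intro g
    obtain ⟨f, hf⟩ := (twb d (P := Q) (Q := P) (i := i)).surjective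
      (inv ((Sb X).map ((cohMul X d s).app Q)) ≫ g)
    refine ⟨f, ?_⟩
    change (Sb X).map ((cohMul X d s).app Q) ≫ twb d f = g
    rw [hf, IsIso.hom_inv_id_assoc]

theorem orth {Q Q' : Coh X} {d : ℤ} (s : X.piece d) (h0 : (cohMul X d s).app Q = 0)
    (h1 : IsIso ((cohMul X d s).app Q')) (i : ℤ) (f : (Sb X).obj Q ⟶ ((Sb X).obj Q')⟦i⟧) :
    f = 0 := by
  have h := twb_mul d s f
  rw [h0, Functor.map_zero, zero_comp] at h
  exact (cancel_mono (((Sb X).map ((cohMul X d s).app Q'))⟦i⟧')).1 (h.symm.trans zero_comp.symm)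

end Pool.Agent.H63.KH
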