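import Mathlib

/-!
# Exact functors and natural transformations on derived categories

For an exact functor `F : C ⥤ D` the maps `twMap F : Hom(Q, Q'[i]) → Hom(F Q, F Q'[i])`, bijective if
`F` is an equivalence, and their compatibility with a natural transformation `τ : 𝟭 C ⟶ F`.
-/

namespace Pool.Agent.H63.KH

open CategoryTheory Limits DerivedCategory

universe w v u

variable {C : Type u} [Category.{v} C] [Abelian C] [HasDerivedCategory.{w} C]

section nat

variable (F : C ⥤ C) [F.Additive] [PreservesFiniteLimits F] [PreservesFiniteColimits F]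
  (τ : 𝟭 C ⟶ F)

/-- the natural transformation on complexes induced by `τ` -/
noncomputable def natC : 𝟭 (CochainComplex C ℤ) ⟶ F.mapHomologicalComplex (.up ℤ) where
  app K := { f := fun n => τ.app (K.X n), comm' := fun i j _ => (τ.naturality _).symm }
  naturality K L f := by
    ext n
    exact τ.naturality _

/-- the natural transformation on derived categories induced by `τ` -/
noncomputable def natD : 𝟭 (DerivedCategory C) ⟶ F.mapDerivedCategory :=
  Localization.liftNatTrans Q (HomologicalComplex.quasiIso C (.up ℤ)) Q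
    (F.mapHomologicalComplex (.up ℤ) ⋙ Q) _ _
    (Functor.whiskerRight (natC F τ) Q)

lemma natD_app (K : CochainComplex C ℤ) :
    (natD F τ).app (Q.obj K) = Q.map ((natC F τ).app K) ≫ F.mapDerivedCategoryFactors.inv.app K := by
  have h := Localization.liftNatTrans_app Q (HomologicalComplex.quasiIso C (.up ℤ)) Q
    (F.mapHomologicalComplex (.up ℤ) ⋙ Q) (𝟭 _) F.mapDerivedCategory
    (Functor.whiskerRight (natC F τ) Q) K
  refine h.trans ?_
  change 𝟙 _ ≫ _ ≫ F.mapDerivedCategoryFactors.inv.app K = _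
  rw [Category.id_comp]
  rfl

omit [HasDerivedCategory.{w} C] [PreservesFiniteLimits F] [PreservesFiniteColimits F] in
lemma natC_shift (K : CochainComplex C ℤ) (a : ℤ) :
    (natC F τ).app (K⟦a⟧) ≫ ((F.mapHomologicalComplex (.up ℤ)).commShiftIso a).hom.app K =
      ((natC F τ).app K)⟦a⟧' := by
  ext n
  exact Category.comp_id _

instance : NatTrans.CommShift (natD F τ) ℤ where
  shift_comm a := by
    refine Localization.natTrans_ext Q (HomologicalComplex.quasiIso C (.up ℤ)) fun K => ?_
    rw [← cancel_epi ((Q.commShiftIso a).hom.app K)]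
    have h := NatTrans.shift_app_comm F.mapDerivedCategoryFactors.inv a K
    rw [Functor.commShiftIso_comp_hom_app, Functor.commShiftIso_comp_hom_app] at h
    have h1 : (Q.commShiftIso a).hom.app K ≫ (natD F τ).app ((Q.obj K)⟦a⟧) =
      (natD F τ).app (Q.obj (K⟦a⟧)) ≫ F.mapDerivedCategory.map ((Q.commShiftIso a).hom.app K) :=
      (natD F τ).naturality ((Q.commShiftIso a).hom.app K)
    have h2 : Q.map (((natC F τ).app K)⟦a⟧') ≫
        (Q.commShiftIso a).hom.app ((F.mapHomologicalComplex (.up ℤ)).obj K) =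
        (Q.commShiftIso a).hom.app K ≫ (Q.map ((natC F τ).app K))⟦a⟧' :=
      (Q.commShiftIso a).hom.naturality ((natC F τ).app K)
    have h3 : (Q.commShiftIso a).hom.app K ≫ (natD F τ).app ((Q.obj K)⟦a⟧) ≫
        (F.mapDerivedCategory.commShiftIso a).hom.app (Q.obj K) =
        (Q.commShiftIso a).hom.app K ≫ ((natD F τ).app (Q.obj K))⟦a⟧' := by
      rw [← Category.assoc, h1, natD_app, natD_app, Category.assoc, Category.assoc, ← h,
        ← Category.assoc, ← Category.assoc, ← Q.map_comp, natC_shift, h2, Category.assoc,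
        ← Functor.map_comp]
    simp only [NatTrans.comp_app, Functor.whiskerRight_app, Functor.whiskerLeft_app,
      Functor.commShiftIso_id_hom_app]
    refine Eq.trans ?_ h3.symm
    exact congrArg _ (Category.id_comp _)

/-- an equivalence induces an equivalence of derived categories -/
instance [F.IsEquivalence] : F.mapDerivedCategory.IsEquivalence := by
  have h1 : (F.mapHomologicalComplex (.up ℤ)).IsEquivalence := by
    have : F.asEquivalence.functor.PreservesZeroMorphisms := inferInstanceAs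
      F.PreservesZeroMorphisms
    have : F.asEquivalence.inverse.PreservesZeroMorphisms := inferInstance
    exact (F.asEquivalence.mapHomologicalComplex (.up ℤ)).isEquivalence_functor
  have h2 : (F.mapHomologicalComplexUpToQuasiIsoLocalizerMorphism
      (.up ℤ)).IsLocalizedEquivalence := by
    have : (F.mapHomologicalComplexUpToQuasiIsoLocalizerMorphism
      (.up ℤ)).functor.IsEquivalence := h1
    refine LocalizerMorphism.IsLocalizedEquivalence.of_equivalence _ ?_
    intro K L f hf
    obtain ⟨K', ⟨eK⟩⟩ : ∃ K', Nonempty ((F.mapHomologicalComplex (.up ℤ)).obj K' ≅ K) :=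
      ⟨_, ⟨(F.mapHomologicalComplex (.up ℤ)).objObjPreimageIso K⟩⟩
    obtain ⟨L', ⟨eL⟩⟩ : ∃ L', Nonempty ((F.mapHomologicalComplex (.up ℤ)).obj L' ≅ L) :=
      ⟨_, ⟨(F.mapHomologicalComplex (.up ℤ)).objObjPreimageIso L⟩⟩
    obtain ⟨g, hg⟩ := (F.mapHomologicalComplex (.up ℤ)).map_surjective (eK.hom ≫ f ≫ eL.inv)
    have hf' : QuasiIso f := hf
    have hq : QuasiIso ((F.mapHomologicalComplex (.up ℤ)).map g) := by
      rw [hg]
      infer_instance
    refine ⟨K', L', g, ?_, ⟨?_⟩⟩
    · exact (HomologicalComplex.quasiIso_map_iff_of_preservesHomology g F).1 hq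
    · refine Arrow.isoMk eK eL ?_
      change eK.hom ≫ f = (F.mapHomologicalComplex (.up ℤ)).map g ≫ eL.hom
      rw [hg]
      simp
  have : CatCommSq (F.mapHomologicalComplexUpToQuasiIsoLocalizerMorphism (.up ℤ)).functor
      (Q (C := C)) (Q (C := C)) F.mapDerivedCategory := ⟨F.mapDerivedCategoryFactors.symm⟩
  exact LocalizerMorphism.isEquivalence
    (F.mapHomologicalComplexUpToQuasiIsoLocalizerMorphism (.up ℤ)) Q Q F.mapDerivedCategory

end nat

section tw

variable (F : C ⥤ C) [F.Additive] [PreservesFiniteLimits F] [PreservesFiniteColimits F]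

/-- abbreviation for the functor from the abelian category to the derived category -/
noncomputable abbrev S₀ (C : Type u) [Category.{v} C] [Abelian C] [HasDerivedCategory.{w} C] :
    C ⥤ DerivedCategory C := singleFunctor C 0

/-- The map `Hom(P, Q[i]) → Hom(F P, F Q[i])` induced by an exact functor `F`. -/
noncomputable def twMap {P Q : C} {i : ℤ} (f : (S₀ C).obj P ⟶ ((S₀ C).obj Q)⟦i⟧) :
    (S₀ C).obj (F.obj P) ⟶ ((S₀ C).obj (F.obj Q))⟦i⟧ :=
  (F.mapDerivedCategorySingleFunctor 0).inv.app P ≫ F.mapDerivedCategory.map f ≫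
    (F.mapDerivedCategory.commShiftIso i).hom.app ((S₀ C).obj Q) ≫
      ((F.mapDerivedCategorySingleFunctor 0).hom.app Q)⟦i⟧'

lemma twMap_add {P Q : C} {i : ℤ} (f g : (S₀ C).obj P ⟶ ((S₀ C).obj Q)⟦i⟧) :
    twMap F (f + g) = twMap F f + twMap F g := by
  simp [twMap, Functor.map_add]

lemma twMap_smul {k : Type*} [CommRing k] [Linear k C] [F.Linear k] {P Q : C} {i : ℤ} (c : k)
    (f : (S₀ C).obj P ⟶ ((S₀ C).obj Q)⟦i⟧) : twMap F (c • f) = c • twMap F f := by
  simp [twMap, Functor.map_smul]

lemma twMap_comp_left {P' P Q : C} {i : ℤ} (g : P' ⟶ P)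
    (f : (S₀ C).obj P ⟶ ((S₀ C).obj Q)⟦i⟧) :
    twMap F ((S₀ C).map g ≫ f) = (S₀ C).map (F.map g) ≫ twMap F f := by
  have h : (S₀ C).map (F.map g) ≫ (F.mapDerivedCategorySingleFunctor 0).inv.app P =
    (F.mapDerivedCategorySingleFunctor 0).inv.app P' ≫ F.mapDerivedCategory.map ((S₀ C).map g) :=
    (F.mapDerivedCategorySingleFunctor 0).inv.naturality g
  simp only [twMap, Functor.map_comp, Category.assoc]
  rw [← Category.assoc, ← h, Category.assoc]

lemma twMap_comp_right {P Q Q' : C} {i : ℤ} (f : (S₀ C).obj P ⟶ ((S₀ C).obj Q)⟦i⟧)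
    (g : Q ⟶ Q') :
    twMap F (f ≫ ((S₀ C).map g)⟦i⟧') = twMap F f ≫ ((S₀ C).map (F.map g))⟦i⟧' := by
  have h : F.mapDerivedCategory.map ((S₀ C).map g) ≫
      (F.mapDerivedCategorySingleFunctor 0).hom.app Q' =
      (F.mapDerivedCategorySingleFunctor 0).hom.app Q ≫ (S₀ C).map (F.map g) :=
    (F.mapDerivedCategorySingleFunctor 0).hom.naturality g
  have h2 : F.mapDerivedCategory.map (((S₀ C).map g)⟦i⟧') ≫
      (F.mapDerivedCategory.commShiftIso i).hom.app ((S₀ C).obj Q') =
      (F.mapDerivedCategory.commShiftIso i).hom.app ((S₀ C).obj Q) ≫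
        (F.mapDerivedCategory.map ((S₀ C).map g))⟦i⟧' :=
    (F.mapDerivedCategory.commShiftIso i).hom.naturality ((S₀ C).map g)
  simp only [twMap, Functor.map_comp, Category.assoc]
  rw [← Category.assoc (F.mapDerivedCategory.map (((S₀ C).map g)⟦i⟧')), h2, Category.assoc,
    ← Functor.map_comp, h, Functor.map_comp]

lemma twMap_bijective [F.IsEquivalence] (P Q : C) (i : ℤ) :
    Function.Bijective (twMap F : ((S₀ C).obj P ⟶ ((S₀ C).obj Q)⟦i⟧) → _) := by
  let e : F.mapDerivedCategory.obj (((S₀ C).obj Q)⟦i⟧) ≅ ((S₀ C).obj (F.obj Q))⟦i⟧ :=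
    (F.mapDerivedCategory.commShiftIso i).app _ ≪≫
      (shiftFunctor _ i).mapIso ((F.mapDerivedCategorySingleFunctor 0).app Q)
  have h : (twMap F : ((S₀ C).obj P ⟶ ((S₀ C).obj Q)⟦i⟧) → _) =
      (((F.mapDerivedCategorySingleFunctor 0).app P).homCongr e) ∘
        (F.mapDerivedCategory.map : ((S₀ C).obj P ⟶ ((S₀ C).obj Q)⟦i⟧) → _) := by
    ext f
    rfl
  rw [h]
  exact (Equiv.bijective _).comp
    ⟨F.mapDerivedCategory.map_injective, F.mapDerivedCategory.map_surjective⟩

variable (τ : 𝟭 C ⟶ F)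

lemma natD_single (P : C) : (natD F τ).app ((S₀ C).obj P) ≫
    (F.mapDerivedCategorySingleFunctor 0).hom.app P = (S₀ C).map (τ.app P) := by
  have h1 := natD_app F τ ((HomologicalComplex.single C (.up ℤ) 0).obj P)
  have h2 := F.mapDerivedCategoryFactors_inv_app_mapDerivedCategorySingleFunctor_hom_app P
  have h3 : (natC F τ).app ((HomologicalComplex.single C (.up ℤ) 0).obj P) ≫
      (F.mapCochainComplexSingleFunctor 0).hom.app P =
      (HomologicalComplex.single C (.up ℤ) 0).map (τ.app P) := by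
    apply HomologicalComplex.from_single_hom_ext
    have h4 : (HomologicalComplex.singleObjXSelf (.up ℤ) 0 P).hom ≫ τ.app P =
      τ.app _ ≫ F.map (HomologicalComplex.singleObjXSelf (.up ℤ) 0 P).hom := τ.naturality _
    have h5 : ((F.mapCochainComplexSingleFunctor 0).hom.app P).f 0 =
      F.map (HomologicalComplex.singleObjXSelf (.up ℤ) 0 P).hom ≫
        (HomologicalComplex.singleObjXSelf (.up ℤ) 0 (F.obj P)).inv :=
      HomologicalComplex.singleMapHomologicalComplex_hom_app_self F (.up ℤ) 0 P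
    have h6 := HomologicalComplex.single_map_f_self (c := .up ℤ) (0 : ℤ) (τ.app P)
    refine (HomologicalComplex.comp_f _ _ 0).trans ?_
    refine (congrArg (fun g => ((natC F τ).app _).f 0 ≫ g) h5).trans ?_
    refine (Category.assoc _ _ _).symm.trans ?_
    refine Eq.trans ?_ h6.symm
    refine Eq.trans ?_ (Category.assoc _ _ _)
    exact congrArg (fun g => g ≫ _) h4.symm
  exact (congrArg (fun g => g ≫ (F.mapDerivedCategorySingleFunctor 0).hom.app P) h1).trans
    ((Category.assoc _ _ _).trans ((congrArg (fun g => Q.map ((natC F τ).app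
      ((HomologicalComplex.single C (.up ℤ) 0).obj P)) ≫ g) h2).trans
        ((Q.map_comp _ _).symm.trans (congrArg Q.map h3))))

lemma twMap_nat {P Q : C} {i : ℤ} (f : (S₀ C).obj P ⟶ ((S₀ C).obj Q)⟦i⟧) :
    (S₀ C).map (τ.app P) ≫ twMap F f = f ≫ ((S₀ C).map (τ.app Q))⟦i⟧' := by
  have h : f ≫ (natD F τ).app _ = (natD F τ).app _ ≫ F.mapDerivedCategory.map f :=
    (natD F τ).naturality f
  have h2 := NatTrans.shift_app_comm (natD F τ) i ((S₀ C).obj Q)
  rw [← natD_single, ← natD_single]
  simp only [twMap, Category.assoc, Functor.map_comp, Iso.hom_inv_id_app_assoc]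
  rw [← Category.assoc ((natD F τ).app _), ← h, Category.assoc]
  have h3 : (natD F τ).app (((S₀ C).obj Q)⟦i⟧) ≫
      (F.mapDerivedCategory.commShiftIso i).hom.app ((S₀ C).obj Q) =
      ((natD F τ).app ((S₀ C).obj Q))⟦i⟧' := by
    refine h2.symm.trans ?_
    rw [Functor.commShiftIso_id_hom_app]
    exact Category.id_comp _
  refine congrArg (fun g => f ≫ g) ?_
  refine (Category.assoc _ _ _).symm.trans ?_
  exact congrArg (fun g => g ≫ _) h3

end tw

end Pool.Agent.H63.KH
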