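import Pool.Agent.H63.KH.PtRight
import Pool.Agent.H63.KH.Chi
import Pool.Agent.H63.KA.Gen
import Pool.Agent.H63.KS.Base

/-!
# KH-14 PtChi (lifting, Euler forms of the skyscraper sheaf of a point)

`Y := pt (R.mem j) (R.ne j)`, `(surfaceBase_of hC).extFin` gives `ExtFin` for all objects.
* `pt_lift`: `h₀ : O X n ⟶ Y` epi (`exists_epi`), `K = kernel h₀`, `0 ⟶ K ⟶ O(n) ⟶ Y ⟶ 0`;
`les_tgt` (`Z = Sb Y`, `j = 2`, `i = 3`) gives `φ` with values in `Hom(Sb Y, (Sb K)⟦3⟧) = 0`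
(`pt_ext3`), so every `k` comes from `Hom(Sb Y, (Sb O(n))⟦2⟧)`.
* `chi_O_pt`: `chi (Sb (O X n)) (Sb Y) = 1`: `left_zero` (with `w` from `exists_piece`, `isIso_mul`),
`chi_single` with `k = 0`, `finrank_hom`, `Sb X` fully faithful, `A ⟶ B⟦0⟧` is `A ⟶ B`.
* `pt_chi_self`: `chi (Sb Pk) (Sb Y) = chi (D(m)) - chi D` and `chi D = chi O(a)(m) - chi O(a)` etc.
(`Sb_tri`, `chi_triangle`, `cohTwistO`, `chi_iso`, the twist by `m` of
`0 ⟶ O(a) ⟶ O(a)(m) ⟶ D ⟶ 0` is exact), so `chi (Sb Pk) (Sb Y) = 1 - 1 - 1 + 1 = 0`. By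
`koz_iso`, `Sb Pk ≅ ⨁ Sb (Y i)`, `chi_biproduct`, and `chi (Sb (Y i)) (Sb Y) = 0` for `i ≠ j`
(`pt_orth`; `chi` of vanishing Homs is zero).
* `pt_chi_ne`: otherwise `chi (Sb Y) (Sb (O X t)) = finrank Hom(Sb Y, (Sb (O X t))⟦2⟧) = 0` for all `t`
(`chi_single`, `pt_right_zero`; finite dimensional by `extFin`), so all `Hom(Sb Y, (Sb (O X t))⟦i⟧)` are
zero. The property `G M := ∀ i, ∀ f : Sb Y ⟶ M⟦i⟧, f = 0` is triangulated and stable under
retracts (Mathlib may have it as an orthogonal), so by `KA.generate` it holds for `M = Sb Y`, and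
`𝟙 = 0`, `Y` is zero, contradiction to `not_isZero_pt`.
-/

namespace Pool.Agent.H63.KH

open CategoryTheory Limits Pretriangulated DerivedCategory H24.Ku KS KA

variable {X : ProjData}

/-- the shifts of the bounded derived category are linear -/
instance shiftLin (n : ℤ) : (shiftFunctor (Db X) n).Linear ℂ where
  map_smul {A B} f c := by
    apply (Bounded.ι (C := Coh X)).map_injective
    have h := fun g : A ⟶ B => ((Bounded.ι (C := Coh X)).commShiftIso n).hom.naturality g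
    have h1 : (Bounded.ι (C := Coh X)).map ((c • f)⟦n⟧') ≫
        ((Bounded.ι (C := Coh X)).commShiftIso n).hom.app B =
        ((Bounded.ι (C := Coh X)).commShiftIso n).hom.app A ≫
          ((Bounded.ι (C := Coh X)).map (c • f))⟦n⟧' := h (c • f)
    have h2 : (Bounded.ι (C := Coh X)).map (f⟦n⟧') ≫
        ((Bounded.ι (C := Coh X)).commShiftIso n).hom.app B =
        ((Bounded.ι (C := Coh X)).commShiftIso n).hom.app A ≫
          ((Bounded.ι (C := Coh X)).map f)⟦n⟧' := h f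
    apply (cancel_mono (((Bounded.ι (C := Coh X)).commShiftIso n).hom.app B)).1
    refine h1.trans ?_
    rw [Functor.map_smul, Functor.map_smul, Functor.map_smul, Linear.comp_smul, ← h2]
    exact (Linear.smul_comp _ _ _ _ _ _).symm

theorem kernel_se {P Q : Coh X} (h : P ⟶ Q) [Epi h] :
    (ShortComplex.mk (kernel.ι h) h (kernel.condition h)).ShortExact where
  exact := ShortComplex.exact_kernel h
  mono_f := by
    change Mono (kernel.ι h)
    infer_instance
  epi_g := by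
    change Epi h
    infer_instance

theorem cokernel_se {P Q : Coh X} (h : P ⟶ Q) [Mono h] :
    (ShortComplex.mk h (cokernel.π h) (cokernel.condition h)).ShortExact where
  exact := ShortComplex.exact_cokernel h
  mono_f := by
    change Mono h
    infer_instance
  epi_g := by
    change Epi (cokernel.π h)
    infer_instance

theorem pt_lift (hX : IsSmoothSurface X) (hC : CohFacts X) {m : ℤ} (R : RTData X m)
    (j : Fin R.r) (n : ℤ) :
    ∃ h : (Sb X).obj (O X n) ⟶ (Sb X).obj (pt (R.mem j) (R.ne j)),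
      ∀ k : (Sb X).obj (pt (R.mem j) (R.ne j)) ⟶
        ((Sb X).obj (pt (R.mem j) (R.ne j)))⟦(2 : ℤ)⟧,
      ∃ k' : (Sb X).obj (pt (R.mem j) (R.ne j)) ⟶ ((Sb X).obj (O X n))⟦(2 : ℤ)⟧,
        k = k' ≫ h⟦(2 : ℤ)⟧' := by
  obtain ⟨h₀, hh₀⟩ := exists_epi (R.mem j) (R.ne j) n
  refine ⟨(Sb X).map h₀, fun k => ?_⟩
  obtain ⟨φ, -, hφ⟩ := les_tgt (kernel_se h₀) ((Sb X).obj (pt (R.mem j) (R.ne j))) 2 3 (by norm_num)
  obtain ⟨k', hk'⟩ := hφ k (pt_ext3 hX hC R j _ 3 (by norm_num) (φ k))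
  exact ⟨k', hk'.symm⟩

/-- `Hom(P, Q) ≃ Hom(Sb P, (Sb Q)⟦0⟧)` -/
noncomputable def homZero (P Q : Coh X) :
    (P ⟶ Q) ≃ₗ[ℂ] ((Sb X).obj P ⟶ ((Sb X).obj Q)⟦(0 : ℤ)⟧) :=
  LinearEquiv.ofBijective
    { toFun := fun f => (Sb X).map f ≫ (shiftFunctorZero (Db X) ℤ).inv.app ((Sb X).obj Q)
      map_add' := fun f g => by rw [Functor.map_add, Preadditive.add_comp]
      map_smul' := fun c f => by rw [Functor.map_smul, Linear.smul_comp]; rfl }
    (by
      constructor
      · intro f g h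
        apply (Sb X).map_injective
        exact (cancel_mono ((shiftFunctorZero (Db X) ℤ).inv.app ((Sb X).obj Q))).1 h
      · intro g
        obtain ⟨f, hf⟩ := (Sb X).map_surjective
          (g ≫ (shiftFunctorZero (Db X) ℤ).hom.app ((Sb X).obj Q))
        refine ⟨f, ?_⟩
        change (Sb X).map f ≫ (shiftFunctorZero (Db X) ℤ).inv.app ((Sb X).obj Q) = g
        rw [hf, Category.assoc, Iso.hom_inv_id_app]
        exact Category.comp_id _)

theorem chi_O_pt (hC : CohFacts X) {m : ℤ} (R : RTData X m) (j : Fin R.r) (n : ℤ) :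
    chi ((Sb X).obj (O X n)) ((Sb X).obj (pt (R.mem j) (R.ne j))) = 1 := by
  obtain ⟨w, hw, hw1⟩ := exists_piece (R.mem j) (R.ne j) 1 (by norm_num) 1
  have hiso : IsIso ((cohMul X 1 ⟨w, hw⟩).app (pt (R.mem j) (R.ne j))) :=
    isIso_mul (R.mem j) (R.ne j) ⟨w, hw⟩ (by
      change evA (R.mem j) w ≠ 0
      rw [hw1]
      exact one_ne_zero)
  rw [chi_single 0 (fun i hi f => left_zero hC ⟨w, hw⟩ hiso n i hi f),
    ← (homZero (O X n) (pt (R.mem j) (R.ne j))).finrank_eq, finrank_hom]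
  simp

theorem chi_se (hC : CohFacts X) {T : ShortComplex (Coh X)} (hT : T.ShortExact) (Z : Db X) :
    chi ((Sb X).obj T.X₂) Z = chi ((Sb X).obj T.X₁) Z + chi ((Sb X).obj T.X₃) Z := by
  obtain ⟨δ, hδ⟩ := Sb_tri hT
  exact chi_triangle _ _ δ hδ Z ((surfaceBase_of hC).extFin _ _) ((surfaceBase_of hC).extFin _ _)
    ((surfaceBase_of hC).extFin _ _)

theorem chi_zero {A B : Db X} (h : ∀ (i : ℤ) (f : A ⟶ B⟦i⟧), f = 0) : chi A B = 0 := by
  rw [chi_single 0 (fun i _ f => h i f)]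
  have h1 : Subsingleton (A ⟶ B⟦(0 : ℤ)⟧) := ⟨fun f g => (h 0 f).trans (h 0 g).symm⟩
  rw [Module.finrank_zero_of_subsingleton]
  simp

theorem chi_twist_pt (hC : CohFacts X) {m : ℤ} (R : RTData X m) (j : Fin R.r) (n d : ℤ) :
    chi ((Sb X).obj ((cohTwist X d).obj (O X n))) ((Sb X).obj (pt (R.mem j) (R.ne j))) = 1 := by
  rw [chi_iso ((Sb X).mapIso (cohTwistO X n d (n + d) rfl)), chi_O_pt hC]

theorem chi_twist2_pt (hC : CohFacts X) {m : ℤ} (R : RTData X m) (j : Fin R.r) (n d e : ℤ) :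
    chi ((Sb X).obj ((cohTwist X e).obj ((cohTwist X d).obj (O X n))))
      ((Sb X).obj (pt (R.mem j) (R.ne j))) = 1 := by
  rw [chi_iso ((Sb X).mapIso ((cohTwist X e).mapIso (cohTwistO X n d (n + d) rfl))),
    chi_twist_pt hC]

theorem pt_chi_self (hX : IsSmoothSurface X) (hC : CohFacts X) {m : ℤ} (R : RTData X m)
    (j : Fin R.r) :
    chi ((Sb X).obj (pt (R.mem j) (R.ne j))) ((Sb X).obj (pt (R.mem j) (R.ne j))) = 0 := by
  have hmu := koz_mono_u hX.prime (m := m) (u := R.u) R.u_ne 0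
  have hmv := koz_mono_v R 0
  -- the sequence for `D`
  have e1 := chi_se hC (cokernel_se ((cohMul X m R.u).app (O X 0)))
    ((Sb X).obj (pt (R.mem j) (R.ne j)))
  have e2 := chi_se hC ((cokernel_se ((cohMul X m R.u).app (O X 0))).map_of_exact
    (cohTwist X m)) ((Sb X).obj (pt (R.mem j) (R.ne j)))
  have e3 := chi_se hC (cokernel_se ((cohMul X m R.v).app (Dk X R.u 0)))
    ((Sb X).obj (pt (R.mem j) (R.ne j)))
  have e1' : chi ((Sb X).obj (Dk X R.u 0)) ((Sb X).obj (pt (R.mem j) (R.ne j))) = 0 := by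
    have h1 : chi ((Sb X).obj ((cohTwist X m).obj (O X 0)))
      ((Sb X).obj (pt (R.mem j) (R.ne j))) = chi ((Sb X).obj (O X 0))
      ((Sb X).obj (pt (R.mem j) (R.ne j))) + chi ((Sb X).obj (Dk X R.u 0))
      ((Sb X).obj (pt (R.mem j) (R.ne j))) := e1
    rw [chi_twist_pt hC, chi_O_pt hC] at h1
    linarith
  have e2' : chi ((Sb X).obj ((cohTwist X m).obj (Dk X R.u 0)))
      ((Sb X).obj (pt (R.mem j) (R.ne j))) = 0 := by
    have h1 : chi ((Sb X).obj ((cohTwist X m).obj ((cohTwist X m).obj (O X 0))))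
      ((Sb X).obj (pt (R.mem j) (R.ne j))) = chi ((Sb X).obj ((cohTwist X m).obj (O X 0)))
      ((Sb X).obj (pt (R.mem j) (R.ne j))) + chi ((Sb X).obj ((cohTwist X m).obj (Dk X R.u 0)))
      ((Sb X).obj (pt (R.mem j) (R.ne j))) := e2
    rw [chi_twist2_pt hC, chi_twist_pt hC] at h1
    linarith
  have e3' : chi ((Sb X).obj (Pk X R.u R.v 0)) ((Sb X).obj (pt (R.mem j) (R.ne j))) = 0 := by
    have h1 : chi ((Sb X).obj ((cohTwist X m).obj (Dk X R.u 0)))
      ((Sb X).obj (pt (R.mem j) (R.ne j))) = chi ((Sb X).obj (Dk X R.u 0))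
      ((Sb X).obj (pt (R.mem j) (R.ne j))) + chi ((Sb X).obj (Pk X R.u R.v 0))
      ((Sb X).obj (pt (R.mem j) (R.ne j))) := e3
    rw [e1', e2'] at h1
    linarith
  obtain ⟨e⟩ := koz_iso R 0
  rw [chi_iso ((Sb X).mapIso e),
    chi_iso ((Sb X).mapBiproduct (fun j => pt (R.mem j) (R.ne j))),
    chi_biproduct _ _ (fun i => (surfaceBase_of hC).extFin _ _), Finset.sum_eq_single j] at e3'
  · exact e3'
  · intro i _ hij
    exact chi_zero fun k f => pt_orth R i j hij k f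
  · intro h
    exact absurd (Finset.mem_univ j) h

/-- the objects to which `A` has no morphisms in any degree -/
def orthTo (A : Db X) : ObjectProperty (Db X) := fun M => ∀ (i : ℤ) (f : A ⟶ M⟦i⟧), f = 0

instance (A : Db X) : (orthTo A).IsClosedUnderIsomorphisms where
  of_iso {E E'} e hE i φ := by
    have := hE i (φ ≫ e.inv⟦i⟧')
    rw [← cancel_mono (e.inv⟦i⟧'), this, zero_comp]

instance (A : Db X) : (orthTo A).IsStableUnderRetracts where
  of_retract {E E'} r hE i φ := by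
    have h1 := hE i (φ ≫ r.i⟦i⟧')
    have h2 : (φ ≫ r.i⟦i⟧') ≫ r.r⟦i⟧' = φ := by
      rw [Category.assoc, ← Functor.map_comp, r.retract, CategoryTheory.Functor.map_id]
      exact Category.comp_id _
    rw [← h2, h1, zero_comp]

open ZeroObject in
instance (A : Db X) : (orthTo A).IsTriangulated where
  exists_zero := ⟨0, isZero_zero _, fun n φ =>
    ((shiftFunctor (Db X) n).map_isZero (isZero_zero _)).eq_of_tgt _ _⟩
  isStableUnderShiftBy m := ⟨fun E hE n φ => by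
    have := hE (m + n) (φ ≫ (shiftFunctorAdd (Db X) m n).inv.app E)
    rw [← cancel_mono ((shiftFunctorAdd (Db X) m n).inv.app E), this, zero_comp]⟩
  toIsTriangulatedClosed₂ := .mk' fun T hT h1 h3 n φ => by
    obtain ⟨ψ, hψ⟩ := Triangle.coyoneda_exact₂ _ (Triangle.shift_distinguished T hT n) φ
      (h3 n _)
    have hψ0 : ψ = 0 := h1 n ψ
    subst hψ0
    exact hψ.trans zero_comp

theorem pt_chi_ne (hX : IsSmoothSurface X) (hC : CohFacts X) {m : ℤ} (R : RTData X m)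
    (j : Fin R.r) :
    ∃ t : ℤ, chi ((Sb X).obj (pt (R.mem j) (R.ne j))) ((Sb X).obj (O X t)) ≠ 0 := by
  by_contra hcon
  push Not at hcon
  have h1 : ∀ t : ℤ, orthTo ((Sb X).obj (pt (R.mem j) (R.ne j))) ((Sb X).obj (O X t)) := by
    intro t i f
    rcases eq_or_ne i 2 with rfl | hi
    · have h2 := hcon t
      rw [chi_single 2 (fun i hi f => pt_right_zero hX hC R j t i hi f)] at h2
      have h3 : Module.finrank ℂ ((Sb X).obj (pt (R.mem j) (R.ne j)) ⟶
          ((Sb X).obj (O X t))⟦(2 : ℤ)⟧) = 0 := by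
        have h4 : (Int.negOnePow 2 : ℤ) ≠ 0 := by simp
        have h5 := (_root_.mul_eq_zero.mp h2).resolve_left h4
        exact_mod_cast h5
      have h6 := ((surfaceBase_of hC).extFin ((Sb X).obj (pt (R.mem j) (R.ne j)))
        ((Sb X).obj (O X t))).fin 2
      have h7 := Module.finrank_zero_iff.mp h3
      exact Subsingleton.elim _ _
    · exact pt_right_zero hX hC R j t i hi f
  have h2 := generate (surfaceBase_of hC) (orthTo ((Sb X).obj (pt (R.mem j) (R.ne j)))) 0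
    (fun n _ => h1 (-n)) ((Sb X).obj (pt (R.mem j) (R.ne j)))
  have h3 := h2 0 (homZero _ _ (𝟙 (pt (R.mem j) (R.ne j))))
  have h4 : 𝟙 (pt (R.mem j) (R.ne j)) = 0 := (LinearEquiv.map_eq_zero_iff _).1 h3
  exact not_isZero_pt (R.mem j) (R.ne j) ((IsZero.iff_id_eq_zero _).2 h4)

end Pool.Agent.H63.KH
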