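import Pool.Agent.H63.KH.PtMod

/-!
# KH-4 PtCoh (the skyscraper sheaf of a point)

`pt hy hy0` is the sheaf of `ptMod hy hy0 0`.
* `pt_trunc`: for `n₀ ≤ n₁` the inclusion `ptMod n₁ ⟶ ptMod n₀` is bijective in degrees `≥ n₁`
(`isIso_sheaf_map_iff'`).
* `isIso_mul`: by `cohMul_app_sheaf` enough that `(sheaf X).map ((mulMap X d s).app M)` is an
isomorphism (`isIso_sheaf_map_iff'`); in degree `m ≥ 0` it is `M_m = ℂ → M_(m+d) = ℂ`, multiplication
by `s(y) ≠ 0` (`s ≠ 0`, so `d ≥ 0`, `piece_neg`). `mul_eq_zero`: the same with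
`sheaf_map_eq_zero_iff`.
* `mul_comp_inj` (for a coherent sheaf `Q` with `cohMul X d s` invertible on `Q`): naturality of
`cohMul X d s`: every `g : P(d) ⟶ Q` has `g ≫ μ = f(d)` for an `f : P ⟶ Q` (`cohTwist X d` is full),
and `(cohMul P) ≫ g ≫ μ = (cohMul P) ≫ f(d) = f ≫ μ`.
-/

namespace Pool.Agent.H63.KH

open CategoryTheory Limits H24.Ku MvPolynomial

variable {X : ProjData}

/-- the skyscraper sheaf of a point -/
noncomputable def pt {y : Fin (X.N + 1) → ℂ} (hy : ∀ p ∈ X.I, eval y p = 0) (hy0 : y ≠ 0) :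
    Coh X := (sheaf X).obj (ptMod hy hy0 0)

theorem tr_anti {n₀ n₁ : ℤ} (h : n₀ ≤ n₁) (n : ℤ) : tr n₁ n ≤ tr n₀ n := by
  by_cases h1 : n₁ ≤ n
  · rw [tr_of_le (le_trans h h1)]
    exact le_top
  · rw [tr_of_lt (not_le.1 h1)]
    exact bot_le

/-- the inclusion of truncations -/
noncomputable def ptIncl {y : Fin (X.N + 1) → ℂ} (hy : ∀ p ∈ X.I, eval y p = 0) (hy0 : y ≠ 0)
    {n₀ n₁ : ℤ} (h : n₀ ≤ n₁) : ptMod hy hy0 n₁ ⟶ ptMod hy hy0 n₀ :=
  ObjectProperty.homMk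
    { app := fun n => ModuleCat.ofHom (Submodule.inclusion (tr_anti h n.deg))
      naturality := fun m n a => by
        ext x
        rfl }

theorem isIso_ptIncl {y : Fin (X.N + 1) → ℂ} (hy : ∀ p ∈ X.I, eval y p = 0) (hy0 : y ≠ 0)
    {n₀ n₁ : ℤ} (h : n₀ ≤ n₁) : IsIso ((sheaf X).map (ptIncl hy hy0 h)) := by
  rw [isIso_sheaf_map_iff']
  refine ⟨n₁, fun m hm => ⟨?_, ?_⟩⟩
  · exact Submodule.inclusion_injective (tr_anti h m)
  · rintro ⟨x, hx⟩
    refine ⟨⟨x, ?_⟩, rfl⟩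
    change x ∈ tr n₁ m
    rw [tr_of_le hm]
    exact Submodule.mem_top

theorem pt_trunc {y : Fin (X.N + 1) → ℂ} (hy : ∀ p ∈ X.I, eval y p = 0) (hy0 : y ≠ 0) (n₀ : ℤ) :
    Nonempty ((sheaf X).obj (ptMod hy hy0 n₀) ≅ pt hy hy0) := by
  have h1 := isIso_ptIncl hy hy0 (le_max_left n₀ 0)
  have h2 := isIso_ptIncl hy hy0 (le_max_right n₀ 0)
  have i1 : (sheaf X).obj (ptMod hy hy0 (max n₀ 0)) ≅ (sheaf X).obj (ptMod hy hy0 n₀) :=
    asIso ((sheaf X).map (ptIncl hy hy0 (le_max_left n₀ 0)))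
  have i2 : (sheaf X).obj (ptMod hy hy0 (max n₀ 0)) ≅ (sheaf X).obj (ptMod hy hy0 0) :=
    asIso ((sheaf X).map (ptIncl hy hy0 (le_max_right n₀ 0)))
  exact ⟨i1.symm ≪≫ i2⟩

theorem mulMap_pt {y : Fin (X.N + 1) → ℂ} (hy : ∀ p ∈ X.I, eval y p = 0) (hy0 : y ≠ 0)
    {d : ℤ} (s : X.piece d) (m : ℤ) (x : tr 0 m) :
    ((((mulMap X d s).app (ptMod hy hy0 0)).hom.app ⟨m⟩).hom x : tr 0 (m + d)).1 =
      evA hy s * x.1 := rfl

theorem isIso_mul {y : Fin (X.N + 1) → ℂ} (hy : ∀ p ∈ X.I, eval y p = 0) (hy0 : y ≠ 0)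
    {d : ℤ} (s : X.piece d) (hs : evA hy s ≠ 0) : IsIso ((cohMul X d s).app (pt hy hy0)) := by
  have h1 : IsIso ((sheaf X).map ((mulMap X d s).app (ptMod hy hy0 0))) := by
    rw [isIso_sheaf_map_iff']
    refine ⟨max 0 (-d), fun m hm => ⟨?_, ?_⟩⟩
    · intro x x' hx
      have h2 : evA hy s * (x : tr 0 m).1 = evA hy s * (x' : tr 0 m).1 := by
        rw [← mulMap_pt hy hy0 s m x, ← mulMap_pt hy hy0 s m x']
        exact congrArg Subtype.val hx
      exact Subtype.ext (mul_left_cancel₀ hs h2)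
    · intro z
      refine ⟨(⟨(evA hy s)⁻¹ * (z : tr 0 (m + d)).1, ?_⟩ : tr 0 m), ?_⟩
      · rw [tr_of_le (le_trans (le_max_left _ _) hm)]
        exact Submodule.mem_top
      · refine Subtype.ext ?_
        refine (mulMap_pt hy hy0 s m _).trans ?_
        change evA hy s * ((evA hy s)⁻¹ * _) = _
        rw [← mul_assoc, mul_inv_cancel₀ hs, one_mul]
  have h2 : (cohMul X d s).app (pt hy hy0) =
      (sheaf X).map ((mulMap X d s).app (ptMod hy hy0 0)) ≫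
        (cohTwistIso X d).inv.app (ptMod hy hy0 0) := cohMul_app_sheaf X d s (ptMod hy hy0 0)
  have h3 : IsIso ((cohTwistIso X d).inv.app (ptMod hy hy0 0)) := inferInstance
  rw [h2]
  exact @IsIso.comp_isIso _ _ _ _ _ _ _ h1 h3

theorem mul_eq_zero {y : Fin (X.N + 1) → ℂ} (hy : ∀ p ∈ X.I, eval y p = 0) (hy0 : y ≠ 0)
    {d : ℤ} (s : X.piece d) (hs : evA hy s = 0) : (cohMul X d s).app (pt hy hy0) = 0 := by
  have h1 : (sheaf X).map ((mulMap X d s).app (ptMod hy hy0 0)) = 0 := by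
    rw [sheaf_map_eq_zero_iff]
    refine ⟨0, fun m _ x => Subtype.ext ?_⟩
    refine (mulMap_pt hy hy0 s m x).trans ?_
    rw [hs, zero_mul]
    rfl
  have h2 : (cohMul X d s).app (pt hy hy0) =
      (sheaf X).map ((mulMap X d s).app (ptMod hy hy0 0)) ≫
        (cohTwistIso X d).inv.app (ptMod hy hy0 0) := cohMul_app_sheaf X d s (ptMod hy hy0 0)
  rw [h2, h1]
  exact zero_comp

theorem mul_comp_inj {Q : Coh X} {d : ℤ} (s : X.piece d) (hs : IsIso ((cohMul X d s).app Q))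
    (P : Coh X) : Function.Bijective (fun g : (cohTwist X d).obj P ⟶ Q =>
      ((cohMul X d s).app P : P ⟶ (cohTwist X d).obj P) ≫ g) := by
  have hnat : ∀ f : P ⟶ Q, f ≫ ((cohMul X d s).app Q : Q ⟶ (cohTwist X d).obj Q) =
      ((cohMul X d s).app P : P ⟶ (cohTwist X d).obj P) ≫ (cohTwist X d).map f :=
    fun f => (cohMul X d s).naturality f
  have hmono : Mono ((cohMul X d s).app Q : Q ⟶ (cohTwist X d).obj Q) := by
    have := hs
    infer_instance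
  have key : ∀ g : (cohTwist X d).obj P ⟶ Q,
      (cohTwist X d).map (((cohMul X d s).app P : P ⟶ (cohTwist X d).obj P) ≫ g) =
        g ≫ ((cohMul X d s).app Q : Q ⟶ (cohTwist X d).obj Q) := by
    intro g
    obtain ⟨f, hf⟩ := (cohTwist X d).map_surjective
      (g ≫ ((cohMul X d s).app Q : Q ⟶ (cohTwist X d).obj Q))
    have h1 : f = ((cohMul X d s).app P : P ⟶ (cohTwist X d).obj P) ≫ g := by
      refine (cancel_mono ((cohMul X d s).app Q : Q ⟶ (cohTwist X d).obj Q)).1 ?_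
      rw [hnat, hf, Category.assoc]
    rw [← h1, hf]
  constructor
  · intro g g' hg
    have hg' : ((cohMul X d s).app P : P ⟶ (cohTwist X d).obj P) ≫ g =
      ((cohMul X d s).app P : P ⟶ (cohTwist X d).obj P) ≫ g' := hg
    refine (cancel_mono ((cohMul X d s).app Q : Q ⟶ (cohTwist X d).obj Q)).1 ?_
    rw [← key g, ← key g', hg']
  · intro f
    refine ⟨(cohTwist X d).map f ≫ inv ((cohMul X d s).app Q : Q ⟶ (cohTwist X d).obj Q), ?_⟩
    change ((cohMul X d s).app P : P ⟶ (cohTwist X d).obj P) ≫ (cohTwist X d).map f ≫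
      inv ((cohMul X d s).app Q : Q ⟶ (cohTwist X d).obj Q) = f
    rw [← Category.assoc, ← hnat, Category.assoc, IsIso.hom_inv_id, Category.comp_id]

theorem not_isZero_pt {y : Fin (X.N + 1) → ℂ} (hy : ∀ p ∈ X.I, eval y p = 0) (hy0 : y ≠ 0) :
    ¬ IsZero (pt hy hy0) := by
  intro h
  obtain ⟨n₀, hn⟩ := (isZero_sheaf_iff X (ptMod hy hy0 0)).1 h
  have h1 : Subsingleton (tr 0 (max n₀ 0)) := hn ⟨max n₀ 0⟩ (le_max_left _ _)
  have h2 : (1 : ℂ) ∈ tr 0 (max n₀ 0) := by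
    rw [tr_of_le (le_max_right _ _)]
    exact Submodule.mem_top
  have h3 := congrArg Subtype.val (Subsingleton.elim (⟨1, h2⟩ : tr 0 (max n₀ 0)) 0)
  exact one_ne_zero h3

end Pool.Agent.H63.KH
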