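import Pool.Agent.H63.KH.PtCoh

/-!
# KH-5 PtHom (morphisms from line bundles to the skyscraper sheaf of a point)

* `exists_epi`, `finrank_hom`. First for `n ≤ 0`: `e = secOf g`, `g = 1 ∈ M_(-n)`, is epi
(`epi_sheaf_map_iff`, `exists_piece`). `Module.finrank = 1`: `finrank_eq_one_iff'`, generator `e`
(`e ≠ 0` since `pt` is not zero). For `f : O X n ⟶ pt` use `exists_secOf_comp` (G1) with
`N = free X n`, and the element `w^k ∈ (free X n)_(-n+k)`, `k` large: `secOf (w^k) ≫ f = secOf x`,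
`x ∈ M_(-n+k) = ℂ`, and `secOf (w^k) ≫ e = secOf (w(y)^k)`; so `secOf (w^k) ≫ (f - c • e) = 0` for
a suitable `c`, and `f = c • e` by `mul_comp_inj` (`secOf (w^k) : O X (n-k) ⟶ O X n` is
`cohMul X k (w^k)` followed by `cohTwistO`). For `n > 0`: by `mul_comp_inj` and
`cohTwistO` precomposition with `w^n : O X 0 ⟶ O X n` gives a bijection
`Hom(O X n, pt) → Hom(O X 0, pt)`; if the image of `h` is epi then `h` is epi.
* `finrank_end_le`: precomposition with the epi `O X 0 ⟶ pt` is injective.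
-/

namespace Pool.Agent.H63.KH

open CategoryTheory Limits H24.Ku MvPolynomial

variable {X : ProjData}

/-- Multiplication on line bundles through `cohMul`. -/
theorem ptHom_cohMul_twist {n e : ℤ} (s : X.piece (n - e)) :
    ((cohMul X (n - e) s).app (O X e) : O X e ⟶ (cohTwist X (n - e)).obj (O X e)) ≫
      (cohTwistO X e (n - e) n (by ring)).hom = OMul X s := by
  have h1 : ((mulMap X (n - e) s).app (free X e) : free X e ⟶ (twist X (n - e)).obj (free X e)) ≫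
      (twistFree X e (n - e) n (by ring)).hom = freeMul s := by
    apply freeHom_ext
    rw [freeMul_gen]
    refine Subtype.ext ?_
    exact one_mul _
  have h2 := cohMul_app_sheaf X (n - e) s (free X e)
  refine (congrArg (fun φ => φ ≫ (cohTwistO X e (n - e) n (by ring)).hom) h2).trans ?_
  change ((sheaf X).map ((mulMap X (n - e) s).app (free X e)) ≫
    (cohTwistIso X (n - e)).inv.app (free X e)) ≫ ((cohTwistIso X (n - e)).hom.app (free X e) ≫
      (sheaf X).map (twistFree X e (n - e) n (by ring)).hom) = _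
  rw [Category.assoc, Iso.inv_hom_id_app_assoc]
  refine ((sheaf X).map_comp _ _).symm.trans ?_
  exact congrArg (sheaf X).map h1

theorem ptHom_OMul_bij {y : Fin (X.N + 1) → ℂ} (hy : ∀ p ∈ X.I, eval y p = 0) (hy0 : y ≠ 0)
    {n e : ℤ} (s : X.piece (n - e)) (hs : evA hy s ≠ 0) :
    Function.Bijective (fun f : O X n ⟶ pt hy hy0 => OMul X s ≫ f) := by
  have h1 := mul_comp_inj s (isIso_mul hy hy0 s hs) (O X e)
  have h2 : Function.Bijective (fun f : O X n ⟶ pt hy hy0 =>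
      (cohTwistO X e (n - e) n (by ring)).hom ≫ f) := by
    constructor
    · intro f g hfg
      exact (cancel_epi _).1 hfg
    · intro g
      exact ⟨(cohTwistO X e (n - e) n (by ring)).inv ≫ g, Iso.hom_inv_id_assoc _ _⟩
  have h3 := h1.comp h2
  have h4 : (fun f : O X n ⟶ pt hy hy0 => OMul X s ≫ f) =
      (fun g : (cohTwist X (n - e)).obj (O X e) ⟶ pt hy hy0 =>
      ((cohMul X (n - e) s).app (O X e) : O X e ⟶ (cohTwist X (n - e)).obj (O X e)) ≫ g) ∘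
      (fun f : O X n ⟶ pt hy hy0 => (cohTwistO X e (n - e) n (by ring)).hom ≫ f) := by
    funext f
    refine (congrArg (fun φ => φ ≫ f) (ptHom_cohMul_twist s)).symm.trans ?_
    exact Category.assoc _ _ _
  rw [h4]
  exact h3

/-- the element `1` in degree `m ≥ 0` -/
noncomputable def ptOne {y : Fin (X.N + 1) → ℂ} (hy : ∀ p ∈ X.I, eval y p = 0) (hy0 : y ≠ 0)
    {m : ℤ} (hm : 0 ≤ m) : (ptMod hy hy0 0).obj.obj ⟨m⟩ :=
  (⟨1, by rw [tr_of_le hm]; exact Submodule.mem_top⟩ : tr 0 m)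

theorem ptHom_epi {y : Fin (X.N + 1) → ℂ} (hy : ∀ p ∈ X.I, eval y p = 0) (hy0 : y ≠ 0)
    {n : ℤ} (hn : 0 ≤ -n) : Epi (secOf (n := n) (ptOne hy hy0 hn)) := by
  change Epi ((sheaf X).map (freeHom (ptOne hy hy0 hn)))
  rw [epi_sheaf_map_iff]
  refine ⟨-n, fun m hm z => ?_⟩
  obtain ⟨a, ha, ha'⟩ := exists_piece hy hy0 (m - (-n)) (by omega) (z : tr 0 m).1
  refine ⟨(⟨a, ha⟩ : (⟨-n⟩ : Deg X) ⟶ ⟨m⟩), ?_⟩
  refine Subtype.ext ?_
  change evA hy a • (1 : ℂ) = _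
  rw [ha', smul_eq_mul, mul_one]

theorem ptHom_gen {y : Fin (X.N + 1) → ℂ} (hy : ∀ p ∈ X.I, eval y p = 0) (hy0 : y ≠ 0)
    {n : ℤ} (hn : 0 ≤ -n) (f : O X n ⟶ pt hy hy0) :
    ∃ c : ℂ, c • secOf (n := n) (ptOne hy hy0 hn) = f := by
  obtain ⟨n₀, h⟩ := exists_secOf_comp (N := free X n) (M := ptMod hy hy0 0) f
  obtain ⟨e, he1, he2⟩ : ∃ e : ℤ, n₀ ≤ -e ∧ e ≤ n :=
    ⟨min (-n₀) n, by have := min_le_left (-n₀) n; omega, min_le_right _ _⟩
  obtain ⟨a, ha, ha'⟩ := exists_piece hy hy0 (n - e) (by omega) 1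
  obtain ⟨x, hx⟩ := h e he1 (⟨a, mem_piece_congr (by
    change n - e = -e - -n
    ring) ha⟩ : (⟨-n⟩ : Deg X) ⟶ ⟨-e⟩)
  have hs : evA hy (⟨a, ha⟩ : X.piece (n - e)) ≠ 0 := by
    change evA hy a ≠ 0
    rw [ha']
    exact one_ne_zero
  refine ⟨(x : tr 0 (-e)).1, ?_⟩
  apply (ptHom_OMul_bij hy hy0 (⟨a, ha⟩ : X.piece (n - e)) hs).1
  change OMul X (⟨a, ha⟩ : X.piece (n - e)) ≫
    ((x : tr 0 (-e)).1 • secOf (n := n) (ptOne hy hy0 hn)) =
      OMul X (⟨a, ha⟩ : X.piece (n - e)) ≫ f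
  have h1 : OMul X (⟨a, ha⟩ : X.piece (n - e)) ≫ f = secOf x := hx
  rw [h1, Linear.comp_smul, OMul_comp_secOf, ← map_smul]
  congr 1
  refine Subtype.ext ?_
  change (x : tr 0 (-e)).1 • (evA hy a • (1 : ℂ)) = (x : tr 0 (-e)).1
  rw [ha', smul_eq_mul, smul_eq_mul, mul_one, mul_one]

theorem exists_epi {y : Fin (X.N + 1) → ℂ} (hy : ∀ p ∈ X.I, eval y p = 0) (hy0 : y ≠ 0)
    (n : ℤ) : ∃ h : O X n ⟶ pt hy hy0, Epi h := by
  rcases le_or_gt n 0 with hn | hn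
  · exact ⟨_, ptHom_epi hy hy0 (n := n) (by omega)⟩
  · obtain ⟨a, ha, ha'⟩ := exists_piece hy hy0 (n - 0) (by omega) 1
    have hs : evA hy (⟨a, ha⟩ : X.piece (n - 0)) ≠ 0 := by
      change evA hy a ≠ 0
      rw [ha']
      exact one_ne_zero
    obtain ⟨h, hh⟩ := (ptHom_OMul_bij hy hy0 (⟨a, ha⟩ : X.piece (n - 0)) hs).2
      (secOf (n := 0) (ptOne hy hy0 (by omega)))
    refine ⟨h, ?_⟩
    have h1 : Epi (OMul X (⟨a, ha⟩ : X.piece (n - 0)) ≫ h) := by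
      have h2 := ptHom_epi hy hy0 (n := 0) (by omega)
      rw [← hh] at h2
      exact h2
    exact epi_of_epi (OMul X (⟨a, ha⟩ : X.piece (n - 0))) h

theorem ptHom_finrank_nonpos {y : Fin (X.N + 1) → ℂ} (hy : ∀ p ∈ X.I, eval y p = 0) (hy0 : y ≠ 0)
    {n : ℤ} (hn : 0 ≤ -n) : Module.finrank ℂ (O X n ⟶ pt hy hy0) = 1 := by
  rw [finrank_eq_one_iff']
  refine ⟨secOf (n := n) (ptOne hy hy0 hn), ?_, ptHom_gen hy hy0 hn⟩
  intro h0
  have h1 := ptHom_epi hy hy0 hn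
  apply not_isZero_pt hy hy0
  rw [h0] at h1
  have h2 : Epi (0 : O X n ⟶ pt hy hy0) := h1
  rw [IsZero.iff_id_eq_zero, ← cancel_epi (0 : O X n ⟶ pt hy hy0)]
  simp

theorem finrank_hom {y : Fin (X.N + 1) → ℂ} (hy : ∀ p ∈ X.I, eval y p = 0) (hy0 : y ≠ 0)
    (n : ℤ) : Module.finrank ℂ (O X n ⟶ pt hy hy0) = 1 := by
  rcases le_or_gt n 0 with hn | hn
  · exact ptHom_finrank_nonpos hy hy0 (by omega)
  · obtain ⟨a, ha, ha'⟩ := exists_piece hy hy0 (n - 0) (by omega) 1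
    have hs : evA hy (⟨a, ha⟩ : X.piece (n - 0)) ≠ 0 := by
      change evA hy a ≠ 0
      rw [ha']
      exact one_ne_zero
    have h1 : Function.Bijective (Linear.leftComp ℂ (pt hy hy0)
        (OMul X (⟨a, ha⟩ : X.piece (n - 0)))) :=
      ptHom_OMul_bij hy hy0 (⟨a, ha⟩ : X.piece (n - 0)) hs
    have h2 := (LinearEquiv.ofBijective _ h1).finrank_eq
    rw [h2]
    exact ptHom_finrank_nonpos hy hy0 (n := 0) (by omega)

theorem finrank_end_le {y : Fin (X.N + 1) → ℂ} (hy : ∀ p ∈ X.I, eval y p = 0) (hy0 : y ≠ 0) :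
    Module.Finite ℂ (pt hy hy0 ⟶ pt hy hy0) ∧
      Module.finrank ℂ (pt hy hy0 ⟶ pt hy hy0) ≤ 1 := by
  obtain ⟨h, hh⟩ := exists_epi hy hy0 0
  have h1 := finrank_hom hy hy0 0
  have h2 : Module.Finite ℂ (O X 0 ⟶ pt hy hy0) :=
    Module.finite_of_finrank_pos (by rw [h1]; exact one_pos)
  have h3 : Function.Injective (Linear.leftComp ℂ (pt hy hy0) h) := by
    intro f g hfg
    exact (cancel_epi h).1 hfg
  refine ⟨Module.Finite.of_injective _ h3, ?_⟩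
  rw [← h1]
  exact LinearMap.finrank_le_finrank_of_injective h3

end Pool.Agent.H63.KH
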