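import Pool.Agent.H63.KH.RT
import Pool.Agent.H63.KH.Frac

/-!
# KH-3 PtMod (the graded module of a point)

`y` a point of the affine cone of `X`, `y ≠ 0`. `ptMod hy hy0 n₀` is the graded module with
`M_n = ℂ` for `n ≥ n₀` and `M_n = 0` for `n < n₀`, where `a ∈ A_d` acts as `a(y)`. Realised as
`M_n = tr n₀ n` (a submodule of `ℂ`).

Hints. `piece_neg`: a polynomial in `homog N d`, `d < 0`, has empty support.
`exists_piece`: some coordinate `y i` is not zero; `a = (c / (y i)^k) • (x_i)^k`, `X i ^ k` is in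
`homog N k`. `evA_smul`: `evA (c • a) = c * evA a`: write `a` as the class of a polynomial.
`grProp_ptFun`: additive and linear from `evA`; `FG`: one generator `1` in degree `n₀` and
`exists_piece`; every element of `M_n`, `n < n₀` is zero.
`exists_separating`: if all `y i * y' j - y j * y' i` were zero, `y'` would be a multiple of `y`
(`y ≠ 0`); take `s = class of y i • X j - y j • X i`.
-/

namespace Pool.Agent.H63.KH

open CategoryTheory Limits H24.Ku MvPolynomial

variable {X : ProjData}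

theorem piece_neg {d : ℤ} (hd : d < 0) {a : X.A} (ha : a ∈ X.piece d) : a = 0 := by
  obtain ⟨p, hp, rfl⟩ := ha
  have h1 : p = 0 := by
    ext m
    rw [coeff_zero]
    by_contra h
    have := mem_homog_iff.1 hp m h
    omega
  rw [h1, map_zero]

private theorem ptMod_evA_mk {y : Fin (X.N + 1) → ℂ} (hy : ∀ p ∈ X.I, eval y p = 0)
    (p : Pol X.N) : evA hy (Ideal.Quotient.mk X.I p) = eval y p :=
  Ideal.Quotient.lift_mk _ _ _

theorem evA_smul {y : Fin (X.N + 1) → ℂ} (hy : ∀ p ∈ X.I, eval y p = 0) (c : ℂ) (a : X.A) :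
    evA hy (c • a) = c * evA hy a := by
  obtain ⟨p, rfl⟩ := Ideal.Quotient.mk_surjective a
  have h1 : c • (Ideal.Quotient.mk X.I p : X.A) = Ideal.Quotient.mk X.I (c • p) := rfl
  rw [h1, ptMod_evA_mk, ptMod_evA_mk, smul_eval]

theorem exists_piece {y : Fin (X.N + 1) → ℂ} (hy : ∀ p ∈ X.I, eval y p = 0) (hy0 : y ≠ 0)
    (k : ℤ) (hk : 0 ≤ k) (c : ℂ) : ∃ a ∈ X.piece k, evA hy a = c := by
  obtain ⟨i, hi⟩ : ∃ i, y i ≠ 0 := by
    by_contra h
    push Not at h
    exact hy0 (funext h)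
  obtain ⟨n, rfl⟩ := Int.eq_ofNat_of_zero_le hk
  refine ⟨Ideal.Quotient.mk X.I ((c / (y i) ^ n) • (MvPolynomial.X i) ^ n), ⟨_, ?_, rfl⟩, ?_⟩
  · refine Submodule.smul_mem _ _ ?_
    rw [mem_homog_iff]
    intro m hm
    rw [coeff_X_pow] at hm
    split_ifs at hm with h
    · rw [← h]
      simp
    · exact absurd rfl hm
  · rw [ptMod_evA_mk, smul_eval, map_pow, eval_X]
    field_simp

/-- the submodule `ℂ` for `n ≥ n₀`, `0` for `n < n₀` -/
noncomputable def tr (n₀ n : ℤ) : Submodule ℂ ℂ := if n₀ ≤ n then ⊤ else ⊥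

theorem tr_of_le {n₀ n : ℤ} (h : n₀ ≤ n) : tr n₀ n = ⊤ := if_pos h

theorem tr_of_lt {n₀ n : ℤ} (h : n < n₀) : tr n₀ n = ⊥ := if_neg (not_le.2 h)

theorem tr_mul {y : Fin (X.N + 1) → ℂ} (hy : ∀ p ∈ X.I, eval y p = 0) (n₀ : ℤ) {m n : ℤ}
    {a : X.A} (ha : a ∈ X.piece (n - m)) (x : ℂ) (hx : x ∈ tr n₀ m) :
    evA hy a • x ∈ tr n₀ n := by
  by_cases hn : n₀ ≤ n
  · rw [tr_of_le hn]
    exact Submodule.mem_top
  · by_cases hm : n₀ ≤ m
    · have h0 : a = 0 := piece_neg (by omega) ha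
      rw [h0, map_zero, zero_smul]
      exact Submodule.zero_mem _
    · rw [tr_of_lt (not_le.1 hm), Submodule.mem_bot] at hx
      rw [hx, smul_zero]
      exact Submodule.zero_mem _

/-- the functor of the graded module of a point -/
noncomputable def ptFun {y : Fin (X.N + 1) → ℂ} (hy : ∀ p ∈ X.I, eval y p = 0) (n₀ : ℤ) :
    Deg X ⥤ ModuleCat.{0} ℂ where
  obj n := ModuleCat.of ℂ (tr n₀ n.deg)
  map {m n} a := ModuleCat.ofHom
    { toFun := fun x => ⟨evA hy a.1 • x.1, tr_mul hy n₀ a.2 x.1 x.2⟩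
      map_add' := fun x x' => Subtype.ext (smul_add _ _ _)
      map_smul' := fun c x => Subtype.ext (smul_comm _ _ _) }
  map_id n := by
    ext x
    change evA hy (1 : X.A) • x.1 = x.1
    rw [map_one, one_smul]
  map_comp a b := by
    ext x
    change evA hy (a.1 * b.1) • x.1 = evA hy b.1 • (evA hy a.1 • x.1)
    rw [map_mul, mul_comm, mul_smul]

theorem grProp_ptFun {y : Fin (X.N + 1) → ℂ} (hy : ∀ p ∈ X.I, eval y p = 0) (hy0 : y ≠ 0)
    (n₀ : ℤ) : grProp X (ptFun hy n₀) := by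
  refine ⟨⟨?_⟩, ⟨?_⟩, ?_⟩
  · intro m n a b
    ext x
    apply Subtype.ext
    change evA hy (a.1 + b.1) • x.1 = evA hy a.1 • x.1 + evA hy b.1 • x.1
    rw [map_add, add_smul]
  · intro m n a c
    ext x
    apply Subtype.ext
    change evA hy (c • a.1) • x.1 = c • (evA hy a.1 • x.1)
    rw [evA_smul]
    exact mul_assoc _ _ _
  · refine FG.of_fintype (ι := Unit) (fun _ => ⟨n₀⟩)
      (fun _ => (⟨1, by rw [tr_of_le le_rfl]; exact Submodule.mem_top⟩ : tr n₀ n₀)) ?_
    intro n z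
    by_cases hn : n₀ ≤ n.deg
    · obtain ⟨a, ha, hc⟩ := exists_piece hy hy0 (n.deg - n₀) (by omega)
        (show ℂ from (z : tr n₀ n.deg).1)
      refine ⟨fun _ => ⟨a, ha⟩, ?_⟩
      rw [Finset.univ_unique, Finset.sum_singleton]
      apply Subtype.ext
      change (z : tr n₀ n.deg).1 = evA hy a • (1 : ℂ)
      rw [hc, smul_eq_mul, mul_one]
    · refine ⟨fun _ => 0, ?_⟩
      have hsub : ∀ w : tr n₀ n.deg, w = 0 := by
        intro w
        apply Subtype.ext
        have h3 : ∀ v : ℂ, v ∈ tr n₀ n.deg → v = 0 := by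
          intro v hv
          rwa [tr_of_lt (not_le.1 hn), Submodule.mem_bot] at hv
        exact h3 _ w.2
      exact (hsub z).trans (hsub _).symm

/-- the graded module of a point -/
noncomputable def ptMod {y : Fin (X.N + 1) → ℂ} (hy : ∀ p ∈ X.I, eval y p = 0) (hy0 : y ≠ 0)
    (n₀ : ℤ) : Gr X := ⟨ptFun hy n₀, grProp_ptFun hy hy0 n₀⟩

theorem exists_separating {y y' : Fin (X.N + 1) → ℂ} (hy : ∀ p ∈ X.I, eval y p = 0)
    (hy' : ∀ p ∈ X.I, eval y' p = 0) (hy0 : y ≠ 0) (h : ∀ c : ℂ, y' ≠ c • y) :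
    ∃ s : X.piece 1, evA hy s = 0 ∧ evA hy' s ≠ 0 := by
  obtain ⟨i, hi⟩ : ∃ i, y i ≠ 0 := by
    by_contra h
    push Not at h
    exact hy0 (funext h)
  obtain ⟨j, hj⟩ : ∃ j, y i * y' j - y j * y' i ≠ 0 := by
    by_contra h1
    push Not at h1
    apply h (y' i / y i)
    funext j
    rw [Pi.smul_apply, smul_eq_mul]
    have := h1 j
    field_simp
    linear_combination this
  refine ⟨⟨Ideal.Quotient.mk X.I (y i • MvPolynomial.X j - y j • MvPolynomial.X i),
    ⟨_, ?_, rfl⟩⟩, ?_, ?_⟩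
  · have hX : ∀ l, (MvPolynomial.X l : Pol X.N) ∈ homog X.N 1 := by
      intro l
      rw [mem_homog_iff]
      intro m hm
      rw [coeff_X] at hm
      split_ifs at hm with h
      · rw [← h]
        simp
      · exact absurd rfl hm
    exact Submodule.sub_mem _ (Submodule.smul_mem _ _ (hX j)) (Submodule.smul_mem _ _ (hX i))
  · change evA hy (Ideal.Quotient.mk X.I _) = 0
    rw [ptMod_evA_mk, map_sub, smul_eval, smul_eval, eval_X, eval_X]
    ring
  · change evA hy' (Ideal.Quotient.mk X.I _) ≠ 0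
    rw [ptMod_evA_mk, map_sub, smul_eval, smul_eval, eval_X, eval_X]
    exact hj

end Pool.Agent.H63.KH
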