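import Pool.Agent.H63.KH.MulD
import Pool.Agent.H63.KH.Les
import Pool.Agent.H63.KH.Koz

/-!
# KH-12 Right (`Hom(Q, O(t)[i])` for a sheaf `Q` killed by `u` and `v`)

Short exact sequences `0 ⟶ O(t) ⟶ O(t)(m) ⟶ D ⟶ 0` and `0 ⟶ D ⟶ D(m) ⟶ Pk ⟶ 0` with
`D = Dk X u t`. For `f : Sb Q ⟶ (Sb O(t))⟦i⟧`: `f ≫ ((Sb X).map u)⟦i⟧' = (Sb X).map (u_Q) ≫ twb m f = 0`
(`twb_mul`). The same for `v` and `D`.
* `i < 0`: `Sb_neg`. `i = 0`: `f` is (up to `shiftFunctorZero`) `Sb` of a morphism of sheaves `f₀`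
with `f₀ ≫ u = 0` (naturality of `cohMul` on `Coh X`), `u` is mono. `i = 1`: `f = φ g` by `les_tgt`
with `g : Sb Q ⟶ (Sb D)⟦0⟧`, `g` is `Sb` of `g₀ : Q ⟶ D` with `g₀ ≫ v = 0`, so `g₀ = 0`.
* `right_two`: `f = φ₁ g`, `g : Sb Q ⟶ (Sb D)⟦1⟧`, `g = φ₂ h`, `h : Sb Q ⟶ (Sb Pk)⟦0⟧`,
`h` = image of a morphism `Q ⟶ Pk` under the linear bijection
`(Q ⟶ Pk) ≃ (Sb Q ⟶ Sb Pk) ≃ (Sb Q ⟶ (Sb Pk)⟦0⟧)`.
-/

namespace Pool.Agent.H63.KH

open CategoryTheory Limits Pretriangulated DerivedCategory H24.Ku KS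

variable {X : ProjData}

/-- Every morphism out of a sheaf killed by `u` is killed by `u`. -/
lemma comp_mul_zero {Q P : Coh X} {m : ℤ} {u : X.piece m} (hu0 : (cohMul X m u).app Q = 0) {i : ℤ}
    (f : (Sb X).obj Q ⟶ ((Sb X).obj P)⟦i⟧) :
    f ≫ ((Sb X).map ((cohMul X m u).app P))⟦i⟧' = 0 := by
  rw [← twb_mul m u f, hu0, Functor.map_zero]
  exact zero_comp

/-- The map `(Q ⟶ P) → (Sb Q ⟶ (Sb P)⟦0⟧)`. -/
noncomputable def lin0 (Q P : Coh X) : (Q ⟶ P) →ₗ[ℂ] ((Sb X).obj Q ⟶ ((Sb X).obj P)⟦(0 : ℤ)⟧) where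
  toFun f := (Sb X).map f ≫ (shiftFunctorZero (Db X) ℤ).inv.app ((Sb X).obj P)
  map_add' f g := by rw [Functor.map_add, Preadditive.add_comp]
  map_smul' c f := by rw [Functor.map_smul, Linear.smul_comp]; rfl

lemma lin0_apply {Q P : Coh X} (f : Q ⟶ P) :
    lin0 Q P f = (Sb X).map f ≫ (shiftFunctorZero (Db X) ℤ).inv.app ((Sb X).obj P) := rfl

lemma lin0_surjective (Q P : Coh X) : Function.Surjective (lin0 Q P) := by
  intro g
  obtain ⟨f, hf⟩ := (Sb X).map_surjective (g ≫ (shiftFunctorZero (Db X) ℤ).hom.app ((Sb X).obj P))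
  refine ⟨f, ?_⟩
  rw [lin0_apply, hf, Category.assoc, Iso.hom_inv_id_app]
  exact Category.comp_id _

lemma zero_case {Q P : Coh X} {m : ℤ} {u : X.piece m} (hu0 : (cohMul X m u).app Q = 0)
    (hu : Mono ((cohMul X m u).app P)) (f : (Sb X).obj Q ⟶ ((Sb X).obj P)⟦(0 : ℤ)⟧) : f = 0 := by
  obtain ⟨f₀, rfl⟩ := lin0_surjective Q P f
  have h : f₀ ≫ (cohMul X m u).app P = 0 := by
    have h1 : f₀ ≫ (cohMul X m u).app P = (cohMul X m u).app Q ≫ (cohTwist X m).map f₀ :=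
      (cohMul X m u).naturality f₀
    rw [h1, hu0, zero_comp]
  have h2 : f₀ = 0 := (cancel_mono ((cohMul X m u).app P)).1 (h.trans zero_comp.symm)
  rw [h2, map_zero]

/-- The short exact sequence `0 ⟶ P ⟶ P(m) ⟶ P(m)/uP ⟶ 0`. -/
lemma shortExact_mul {P : Coh X} {m : ℤ} {u : X.piece m} (hu : Mono ((cohMul X m u).app P)) :
    (ShortComplex.mk ((cohMul X m u).app P) (cokernel.π ((cohMul X m u).app P))
      (cokernel.condition _)).ShortExact where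
  exact := ShortComplex.exact_cokernel _
  mono_f := hu
  epi_g := inferInstance

theorem right_zero {Q : Coh X} {m : ℤ} {u v : X.piece m} (hu0 : (cohMul X m u).app Q = 0)
    (hv0 : (cohMul X m v).app Q = 0) (t : ℤ) (hu : Mono ((cohMul X m u).app (O X t)))
    (hv : Mono ((cohMul X m v).app (Dk X u t))) (i : ℤ) (hi : i ≤ 1)
    (f : (Sb X).obj Q ⟶ ((Sb X).obj (O X t))⟦i⟧) : f = 0 := by
  rcases lt_trichotomy i 0 with h | h | h
  · exact Sb_neg h f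
  · subst h
    exact zero_case hu0 hu f
  · obtain rfl : i = 1 := by omega
    obtain ⟨φ, h1, -⟩ := les_tgt (shortExact_mul hu) ((Sb X).obj Q) 0 1 (by norm_num)
    obtain ⟨g, rfl⟩ := h1 f (comp_mul_zero hu0 f)
    have hg : g = 0 := zero_case hv0 hv g
    rw [hg, map_zero]

theorem right_two {Q : Coh X} {m : ℤ} {u v : X.piece m} (hu0 : (cohMul X m u).app Q = 0)
    (hv0 : (cohMul X m v).app Q = 0) (t : ℤ) (hu : Mono ((cohMul X m u).app (O X t)))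
    (hv : Mono ((cohMul X m v).app (Dk X u t))) :
    ∃ φ : (Q ⟶ Pk X u v t) →ₗ[ℂ] ((Sb X).obj Q ⟶ ((Sb X).obj (O X t))⟦(2 : ℤ)⟧),
      Function.Surjective φ := by
  obtain ⟨φ₁, h1, -⟩ := les_tgt (shortExact_mul hu) ((Sb X).obj Q) 1 2 (by norm_num)
  obtain ⟨φ₂, h2, -⟩ := les_tgt (shortExact_mul hv) ((Sb X).obj Q) 0 1 (by norm_num)
  refine ⟨φ₁ ∘ₗ φ₂ ∘ₗ lin0 Q (Pk X u v t), fun f => ?_⟩
  obtain ⟨g, rfl⟩ := h1 f (comp_mul_zero hu0 f)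
  obtain ⟨h, rfl⟩ := h2 g (comp_mul_zero hv0 g)
  obtain ⟨k, rfl⟩ := lin0_surjective _ _ h
  exact ⟨k, rfl⟩

end Pool.Agent.H63.KH
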