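import Pool.Agent.H63.KH.MulD
import Pool.Agent.H63.KH.Les
import Pool.Agent.H63.KH.Koz

/-!
# KH-11 Van (vanishing of `Ext` into and out of a sheaf which looks like a skyscraper)

`CohFacts` is stated in `D(Coh X)`; `HD` translates: `f : Sb P ⟶ (Sb Q)⟦i⟧` is zero iff `HD f` is.
* `left_zero`: `i < 0`: `Sb_neg`. `i ≥ 1`: `hX.serre Q` gives `n₀` with the claim for all
`O X (-n)`, `n ≥ n₀`; `mul_src_bij` with `P = O X n` and `cohTwistO X n 1 (n+1)` gives the claim for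
`O X (n + 1)` from the claim for `O X n`; induction.
* `serre_twist`: `twb` with `d = -k` (or `d = k` applied to maps `Sb (O X (a - k)) ⟶ (Sb F)⟦i⟧`, which are
zero for `k ≥ n₀ + a` by `hX.serre F`) and `cohTwistO X (a - k) k a`.
* `ext_point_zero`: for a coherent sheaf `G` with `Hom(O(b), G[i]) = 0` for all `i ≥ 1` and
`b ∈ {a, a + m, a + 2m}`: `Hom(D, G[i]) = 0` for `i ≥ 2`, `Hom(D(m), G[i]) = 0` for `i ≥ 2`
(`D = Dk X u a`; short exact sequences `0 ⟶ O(a) ⟶ O(a)(m) ⟶ D ⟶ 0` and its twist by `m`, `cohTwist X m`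
is exact; `les_src`, `cohTwistO`), so `Hom(Pk, G[i]) = 0` for `i ≥ 3`, and the same for the direct
summand `Q` of `Pk`. For an arbitrary `F` use `G = F(k)`, `k` large (`serre_twist`), and that
`f ↦ f ≫ ((Sb X).map ((cohMul X k (w^k)).app F))⟦i⟧'` is injective: by induction on `k` from
`mul_tgt_bij` for `w` (`cohTwistAdd`), or with `w^k ∈ A_k`, which is also invertible on `Q`.
It is enough to use the injective map `f ↦ (Sb X).map μ ≫ twb 1 f` `k` times.
-/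

namespace Pool.Agent.H63.KH

open CategoryTheory Limits Pretriangulated DerivedCategory H24.Ku KS

variable {X : ProjData}

/-- all maps `P ⟶ G[i]` are zero -/
def Zr (P G : Coh X) (i : ℤ) : Prop := ∀ f : (Sb X).obj P ⟶ ((Sb X).obj G)⟦i⟧, f = 0

lemma Zr.src {P P' G : Coh X} {i : ℤ} (e : P ≅ P') (h : Zr P G i) : Zr P' G i := by
  intro f
  have h1 : (Sb X).map e.hom ≫ f = 0 := h _
  have h2 : f = (Sb X).map e.inv ≫ ((Sb X).map e.hom ≫ f) := by
    rw [← Category.assoc, ← Functor.map_comp, e.inv_hom_id, CategoryTheory.Functor.map_id, Category.id_comp]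
  rw [h2, h1, comp_zero]

lemma Zr.tgt {P G G' : Coh X} {i : ℤ} (e : G ≅ G') (h : Zr P G i) : Zr P G' i := by
  intro f
  have h1 : f ≫ ((Sb X).map e.inv)⟦i⟧' = 0 := h _
  have h2 : f = (f ≫ ((Sb X).map e.inv)⟦i⟧') ≫ ((Sb X).map e.hom)⟦i⟧' := by
    rw [Category.assoc, ← Functor.map_comp, ← Functor.map_comp, e.inv_hom_id, CategoryTheory.Functor.map_id,
      CategoryTheory.Functor.map_id, Category.comp_id]
  rw [h2, h1, zero_comp]

lemma Zr.retract {P Q G : Coh X} {i : ℤ} (ι : Q ⟶ P) (π : P ⟶ Q) (hπ : ι ≫ π = 𝟙 Q)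
    (h : Zr P G i) : Zr Q G i := by
  intro f
  have h1 : (Sb X).map π ≫ f = 0 := h _
  have h2 : f = (Sb X).map ι ≫ ((Sb X).map π ≫ f) := by
    rw [← Category.assoc, ← Functor.map_comp, hπ, CategoryTheory.Functor.map_id, Category.id_comp]
  rw [h2, h1, comp_zero]

lemma Zr.of_S {P G : Coh X} {i : ℤ} (h : ∀ f : (S X).obj P ⟶ ((S X).obj G)⟦i⟧, f = 0) :
    Zr P G i := fun f => (HD (X := X)).map_eq_zero_iff.1 (h (HD f))

lemma Zr.twist {P G : Coh X} {i : ℤ} (d : ℤ) (h : Zr P G i) :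
    Zr ((cohTwist X d).obj P) ((cohTwist X d).obj G) i := by
  intro f
  obtain ⟨g, rfl⟩ := (twb d).surjective f
  rw [h g, map_zero]

lemma zr_O_step {Q : Coh X} (w : X.piece 1) (hw : IsIso ((cohMul X 1 w).app Q)) (n i : ℤ)
    (h : Zr (O X n) Q i) : Zr (O X (n + 1)) Q i := by
  have h1 : Zr ((cohTwist X 1).obj (O X n)) Q i := by
    intro g
    apply (mul_src_bij w hw (O X n) i).1
    change (Sb X).map ((cohMul X 1 w).app (O X n)) ≫ g =
      (Sb X).map ((cohMul X 1 w).app (O X n)) ≫ 0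
    exact (h ((Sb X).map ((cohMul X 1 w).app (O X n)) ≫ g)).trans comp_zero.symm
  exact h1.src (cohTwistO X n 1 (n + 1) rfl)

theorem left_zero (hX : CohFacts X) {Q : Coh X} (w : X.piece 1)
    (hw : IsIso ((cohMul X 1 w).app Q)) (n i : ℤ) (hi : i ≠ 0)
    (f : (Sb X).obj (O X n) ⟶ ((Sb X).obj Q)⟦i⟧) : f = 0 := by
  rcases lt_or_gt_of_ne hi with hi | hi
  · exact Sb_neg hi f
  · obtain ⟨n₀, hn₀⟩ := hX.serre Q
    have hlow : ∀ k : ℤ, k ≤ -n₀ → Zr (O X k) Q i := by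
      intro k hk
      have h1 : Zr (O X (-(-k))) Q i := Zr.of_S (hn₀ (-k) (by lia) i (by lia))
      rwa [neg_neg] at h1
    have hup : ∀ t : ℕ, Zr (O X (-n₀ + t)) Q i := by
      intro t
      induction t with
      | zero => exact hlow _ (by simp)
      | succ t ih =>
        have h1 := zr_O_step w hw _ i ih
        have h2 : -n₀ + ((t + 1 : ℕ) : ℤ) = -n₀ + (t : ℤ) + 1 := by push_cast; ring
        rw [h2]
        exact h1
    rcases le_or_gt n (-n₀) with h | h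
    · exact hlow n h f
    · obtain ⟨t, ht⟩ := Int.eq_ofNat_of_zero_le (show 0 ≤ n + n₀ by lia)
      have h1 := hup t
      have h2 : -n₀ + (t : ℤ) = n := by lia
      rw [h2] at h1
      exact h1 f

theorem serre_twist (hX : CohFacts X) (F : Coh X) (a : ℤ) : ∃ k₀ : ℤ, ∀ k ≥ k₀, ∀ i : ℤ, 1 ≤ i →
    ∀ f : (Sb X).obj (O X a) ⟶ ((Sb X).obj ((cohTwist X k).obj F))⟦i⟧, f = 0 := by
  obtain ⟨n₀, hn₀⟩ := hX.serre F
  refine ⟨n₀ + a, fun k hk i hi => ?_⟩
  have h1 : Zr (O X (-(k - a))) F i := Zr.of_S (hn₀ (k - a) (by lia) i hi)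
  have h2 : Zr (O X (a - k)) F i := by
    have h3 : -(k - a) = a - k := by ring
    rwa [h3] at h1
  exact (h2.twist k).src (cohTwistO X (a - k) k a (by ring))

/-- the short exact sequence of a cokernel -/
lemma ses_cokernel {P P' : Coh X} (g : P ⟶ P') (hg : Mono g) :
    (ShortComplex.mk g (cokernel.π g) (cokernel.condition g)).ShortExact where
  exact := ShortComplex.exact_cokernel g
  mono_f := hg
  epi_g := inferInstance

lemma zr_cokernel {P P' G : Coh X} (g : P ⟶ P') (hg : Mono g) (j i : ℤ) (hij : j + 1 = i)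
    (h2 : Zr P' G i) (h1 : Zr P G j) : Zr (cokernel g) G i := fun f =>
  les_src (ses_cokernel g hg) ((Sb X).obj G) j i hij h2 h1 f

lemma zr_cokernel_twist {P P' G : Coh X} (g : P ⟶ P') (hg : Mono g) (d j i : ℤ)
    (hij : j + 1 = i) (h2 : Zr ((cohTwist X d).obj P') G i) (h1 : Zr ((cohTwist X d).obj P) G j) :
    Zr ((cohTwist X d).obj (cokernel g)) G i := fun f =>
  les_src ((ses_cokernel g hg).map_of_exact (cohTwist X d)) ((Sb X).obj G) j i hij h2 h1 f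

lemma zr_down {Q : Coh X} (w : X.piece 1) (hw : IsIso ((cohMul X 1 w).app Q)) (i : ℤ) (k : ℕ) :
    ∀ F : Coh X, Zr Q ((cohTwist X (k : ℤ)).obj F) i → Zr Q F i := by
  induction k with
  | zero => intro F h; exact h.tgt ((cohTwistZero X).app F)
  | succ k ih =>
    intro F h
    have h1 : Zr Q ((cohTwist X (k : ℤ)).obj ((cohTwist X 1).obj F)) i :=
      h.tgt ((cohTwistAdd X 1 (k : ℤ) ((k + 1 : ℕ) : ℤ) (by push_cast; ring)).app F).symm
    have h2 := ih _ h1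
    intro f
    apply (mul_tgt_bij w hw F i).1
    change f ≫ ((Sb X).map ((cohMul X 1 w).app F))⟦i⟧' =
      0 ≫ ((Sb X).map ((cohMul X 1 w).app F))⟦i⟧'
    exact (h2 (f ≫ ((Sb X).map ((cohMul X 1 w).app F))⟦i⟧')).trans zero_comp.symm

theorem ext_point_zero (hX : CohFacts X) {Q : Coh X} (w : X.piece 1)
    (hw : IsIso ((cohMul X 1 w).app Q)) {m : ℤ} {u v : X.piece m} {a : ℤ}
    (hu : Mono ((cohMul X m u).app (O X a))) (hv : Mono ((cohMul X m v).app (Dk X u a)))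
    (ι : Q ⟶ Pk X u v a) (π : Pk X u v a ⟶ Q) (hπ : ι ≫ π = 𝟙 Q) (F : Coh X) (i : ℤ)
    (hi : 3 ≤ i) (f : (Sb X).obj Q ⟶ ((Sb X).obj F)⟦i⟧) : f = 0 := by
  obtain ⟨k0, hk0⟩ := serre_twist hX F a
  obtain ⟨k1, hk1⟩ := serre_twist hX F (a + m)
  obtain ⟨k2, hk2⟩ := serre_twist hX F (a + m + m)
  obtain ⟨k, hk⟩ : ∃ k : ℕ, k0 ≤ k ∧ k1 ≤ k ∧ k2 ≤ k :=
    ⟨(max k0 (max k1 k2)).toNat, by lia, by lia, by lia⟩
  set G : Coh X := (cohTwist X (k : ℤ)).obj F with hG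
  have z0 : ∀ j : ℤ, 1 ≤ j → Zr (O X a) G j := fun j hj => hk0 k hk.1 j hj
  have z1 : ∀ j : ℤ, 1 ≤ j → Zr (O X (a + m)) G j := fun j hj => hk1 k hk.2.1 j hj
  have z2 : ∀ j : ℤ, 1 ≤ j → Zr (O X (a + m + m)) G j := fun j hj => hk2 k hk.2.2 j hj
  have z1' : ∀ j : ℤ, 1 ≤ j → Zr ((cohTwist X m).obj (O X a)) G j := fun j hj =>
    (z1 j hj).src (cohTwistO X a m (a + m) rfl).symm
  have z2' : ∀ j : ℤ, 1 ≤ j → Zr ((cohTwist X m).obj ((cohTwist X m).obj (O X a))) G j :=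
    fun j hj => (z2 j hj).src
      ((cohTwist X m).mapIso (cohTwistO X a m (a + m) rfl) ≪≫
        cohTwistO X (a + m) m (a + m + m) rfl).symm
  have zD : ∀ j : ℤ, 2 ≤ j → Zr (Dk X u a) G j := fun j hj =>
    zr_cokernel _ hu (j - 1) j (by ring) (z1' j (by lia)) (z0 (j - 1) (by lia))
  have zD' : ∀ j : ℤ, 2 ≤ j → Zr ((cohTwist X m).obj (Dk X u a)) G j := fun j hj =>
    zr_cokernel_twist _ hu m (j - 1) j (by ring) (z2' j (by lia)) (z1' (j - 1) (by lia))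
  have zP : Zr (Pk X u v a) G i :=
    zr_cokernel _ hv (i - 1) i (by ring) (zD' i (by lia)) (zD (i - 1) (by lia))
  have zQ : Zr Q G i := zP.retract ι π hπ
  exact zr_down w hw i k F zQ f

end Pool.Agent.H63.KH
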