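import Pool.Agent.H63.KH.KozIso
import Pool.Agent.H63.KH.PtHom
import Pool.Agent.H63.KH.Van
import Pool.Agent.H63.KH.Right

/-!
# KH-13 PtRight (`Hom(pt, O(t)[i])`)

`Y j := pt (R.mem j) (R.ne j)`.
* `pt_split`: `Y j` is a direct summand of `Pk X R.u R.v a` (`koz_iso`).
* `pt_orth`: `Hom(Y i, Y j[k]) = 0` for `i ≠ j` (`exists_separating`, `mul_eq_zero`, `isIso_mul`, `orth`).
* `pt_ext3`: `ext_point_zero` with `w` from `exists_piece` (value `1` at the point), `isIso_mul`,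
`koz_mono_u`, `koz_mono_v`, `pt_split`.
* `pt_right_zero`: `i ≥ 3`: `pt_ext3`; `i ≤ 1`: `right_zero` (`mul_eq_zero` with `R.u_zero`,
`R.v_zero`).
* `pt_right_one`: `right_two` and `koz_iso R t`: `Hom(Y j, Pk) ≃ ∏_i Hom(Y j, Y i)`, the factors with
`i ≠ j` are zero (`pt_orth` with `k = 0`, `Sb X` is faithful), `finrank_end_le`,
`LinearMap.finrank_le_finrank_of_surjective` (`Hom(Y j, Pk)` is finite dimensional).
-/

namespace Pool.Agent.H63.KH

open CategoryTheory Limits Pretriangulated DerivedCategory H24.Ku KS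

variable {X : ProjData}

theorem pt_split {m : ℤ} (R : RTData X m) (j : Fin R.r) (a : ℤ) :
    ∃ (ι : pt (R.mem j) (R.ne j) ⟶ Pk X R.u R.v a) (π : Pk X R.u R.v a ⟶ pt (R.mem j) (R.ne j)),
      ι ≫ π = 𝟙 _ := by
  obtain ⟨e⟩ := koz_iso R a
  refine ⟨biproduct.ι (fun j => pt (R.mem j) (R.ne j)) j ≫ e.inv,
    e.hom ≫ biproduct.π (fun j => pt (R.mem j) (R.ne j)) j, ?_⟩
  rw [Category.assoc, e.inv_hom_id_assoc]
  exact biproduct.ι_π_self _ _

theorem pt_orth {m : ℤ} (R : RTData X m) (i j : Fin R.r) (hij : i ≠ j) (k : ℤ)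
    (f : (Sb X).obj (pt (R.mem i) (R.ne i)) ⟶ ((Sb X).obj (pt (R.mem j) (R.ne j)))⟦k⟧) :
    f = 0 := by
  obtain ⟨s, hs0, hs1⟩ := exists_separating (R.mem i) (R.mem j) (R.ne i)
    (R.distinct j i hij.symm)
  exact orth s (mul_eq_zero (R.mem i) (R.ne i) s hs0) (isIso_mul (R.mem j) (R.ne j) s hs1) k f

theorem PtRight_hom_zero {m : ℤ} (R : RTData X m) (i j : Fin R.r) (hij : i ≠ j)
    (g : pt (R.mem i) (R.ne i) ⟶ pt (R.mem j) (R.ne j)) : g = 0 := by
  have h := pt_orth R i j hij 0 ((Sb X).map g ≫ (shiftFunctorZero (Db X) ℤ).inv.app _)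
  have h1 : (Sb X).map g = 0 := by
    have h2 := (cancel_mono ((shiftFunctorZero (Db X) ℤ).inv.app
      ((Sb X).obj (pt (R.mem j) (R.ne j))))).1 (h.trans zero_comp.symm)
    exact h2
  apply (Sb X).map_injective
  rw [h1, Functor.map_zero]

theorem pt_ext3 (hX : IsSmoothSurface X) (hC : CohFacts X) {m : ℤ} (R : RTData X m)
    (j : Fin R.r) (F : Coh X) (i : ℤ) (hi : 3 ≤ i)
    (f : (Sb X).obj (pt (R.mem j) (R.ne j)) ⟶ ((Sb X).obj F)⟦i⟧) : f = 0 := by
  obtain ⟨w, hw, hw1⟩ := exists_piece (R.mem j) (R.ne j) 1 (by norm_num) 1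
  obtain ⟨ι, π, hπ⟩ := pt_split R j 0
  exact ext_point_zero hC (⟨w, hw⟩ : X.piece 1)
    (isIso_mul (R.mem j) (R.ne j) ⟨w, hw⟩ (by rw [hw1]; exact one_ne_zero))
    (koz_mono_u hX.prime R.u_ne 0) (koz_mono_v R 0) ι π hπ F i hi f

theorem pt_right_zero (hX : IsSmoothSurface X) (hC : CohFacts X) {m : ℤ} (R : RTData X m)
    (j : Fin R.r) (t i : ℤ) (hi : i ≠ 2)
    (f : (Sb X).obj (pt (R.mem j) (R.ne j)) ⟶ ((Sb X).obj (O X t))⟦i⟧) : f = 0 := by
  rcases lt_or_ge i 3 with h | h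
  · exact right_zero (mul_eq_zero (R.mem j) (R.ne j) R.u (R.u_zero j))
      (mul_eq_zero (R.mem j) (R.ne j) R.v (R.v_zero j)) t
      (koz_mono_u hX.prime R.u_ne t) (koz_mono_v R t) i (by omega) f
  · exact pt_ext3 hX hC R j _ i h f

theorem pt_right_one (hX : IsSmoothSurface X) {m : ℤ} (R : RTData X m)
    (j : Fin R.r) (t : ℤ) :
    Module.finrank ℂ ((Sb X).obj (pt (R.mem j) (R.ne j)) ⟶
      ((Sb X).obj (O X t))⟦(2 : ℤ)⟧) ≤ 1 := by
  obtain ⟨φ, hφ⟩ := right_two (mul_eq_zero (R.mem j) (R.ne j) R.u (R.u_zero j))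
      (mul_eq_zero (R.mem j) (R.ne j) R.v (R.v_zero j)) t
      (koz_mono_u hX.prime R.u_ne t) (koz_mono_v R t)
  obtain ⟨e⟩ := koz_iso R t
  obtain ⟨hfin, hrank⟩ := finrank_end_le (R.mem j) (R.ne j)
  let p : (pt (R.mem j) (R.ne j) ⟶ Pk X R.u R.v t) →ₗ[ℂ]
      (pt (R.mem j) (R.ne j) ⟶ pt (R.mem j) (R.ne j)) :=
    { toFun := fun f => f ≫ e.hom ≫ biproduct.π (fun j => pt (R.mem j) (R.ne j)) j
      map_add' := fun f g => Preadditive.add_comp _ _ _ _ _ _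
      map_smul' := fun c f => Linear.smul_comp _ _ _ _ _ _ }
  have hp : Function.Injective p := by
    rw [injective_iff_map_eq_zero]
    intro f hf
    have h1 : f ≫ e.hom = 0 := by
      apply biproduct.hom_ext
      intro i
      rw [zero_comp, Category.assoc]
      by_cases hij : j = i
      · subst hij
        exact hf
      · exact PtRight_hom_zero R j i hij _
    have h2 : f = (f ≫ e.hom) ≫ e.inv := by rw [Category.assoc, e.hom_inv_id, Category.comp_id]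
    rw [h2, h1, zero_comp]
  have hfin2 : Module.Finite ℂ (pt (R.mem j) (R.ne j) ⟶ Pk X R.u R.v t) :=
    Module.Finite.of_injective p hp
  calc Module.finrank ℂ ((Sb X).obj (pt (R.mem j) (R.ne j)) ⟶
      ((Sb X).obj (O X t))⟦(2 : ℤ)⟧) ≤
        Module.finrank ℂ (pt (R.mem j) (R.ne j) ⟶ Pk X R.u R.v t) :=
          LinearMap.finrank_le_finrank_of_surjective hφ
    _ ≤ Module.finrank ℂ (pt (R.mem j) (R.ne j) ⟶ pt (R.mem j) (R.ne j)) :=
          LinearMap.finrank_le_finrank_of_injective hp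
    _ ≤ 1 := hrank

end Pool.Agent.H63.KH
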