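import Pool.Agent.H24.Ku.Statement
import Pool.Agent.H91.RT.Final

/-!
# The ring theorem on Koszul pairs of sections on a smooth surface
(the commutative algebra is in `Pool/Agent/H91/RT`)
-/

namespace Pool.Agent.H63.KH

open CategoryTheory Limits H24.Ku MvPolynomial

variable {X : ProjData}

/-- Evaluation of elements of the homogeneous coordinate ring at a point `y` of the affine cone. -/
noncomputable def evA {y : Fin (X.N + 1) → ℂ} (hy : ∀ p ∈ X.I, eval y p = 0) : X.A →+* ℂ :=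
  Ideal.Quotient.lift X.I (eval y) hy

/-- Two sections `u, v` of `O(m)` without common component whose common zeros are the `r` reduced
points `y j`. -/
structure RTData (X : ProjData) (m : ℤ) where
  u : X.piece m
  v : X.piece m
  u_ne : (u : X.A) ≠ 0
  reg : ∃ n₁ : ℤ, ∀ d : ℤ, n₁ ≤ d → ∀ a ∈ X.piece d, ∀ c ∈ X.piece d,
    (v : X.A) * a = u * c → ∃ b ∈ X.piece (d - m), a = u * b
  r : ℕ
  y : Fin r → Fin (X.N + 1) → ℂ
  mem : ∀ j, ∀ p ∈ X.I, eval (y j) p = 0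
  ne : ∀ j, y j ≠ 0
  distinct : ∀ i j, i ≠ j → ∀ c : ℂ, y i ≠ c • y j
  u_zero : ∀ j, evA (mem j) u = 0
  v_zero : ∀ j, evA (mem j) v = 0
  span : ∃ n₂ : ℤ, ∀ d : ℤ, n₂ ≤ d → ∀ a ∈ X.piece d, (∀ j, evA (mem j) a = 0) →
    ∃ b ∈ X.piece (d - m), ∃ c ∈ X.piece (d - m), a = u * b + v * c

lemma mem_homog_natCast {N d : ℕ} {p : Pol N} : p ∈ homog N (d : ℤ) ↔ p.IsHomogeneous d := by
  constructor
  · intro h s hs
    have := h s (mem_support_iff.2 hs)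
    rw [Nat.cast_inj] at this
    rw [← this, Finsupp.degree_eq_weight_one]
    rfl
  · intro h s hs
    have : s.degree = d := (h.degree_eq_sum_deg_support hs).symm
    rw [this]

lemma evA_mk {y : Fin (X.N + 1) → ℂ} (hy : ∀ p ∈ X.I, eval y p = 0) (p : Pol X.N) :
    evA hy (Ideal.Quotient.mk X.I p) = eval y p :=
  Ideal.Quotient.lift_mk _ _ _

theorem exists_rtData (hX : IsSmoothSurface X) (m : ℤ) (hm : 1 ≤ m) : Nonempty (RTData X m) := by
  obtain ⟨m, rfl⟩ : ∃ k : ℕ, m = k := ⟨m.toNat, by omega⟩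
  obtain ⟨u, v, r, y, hu, hv, hune, ⟨n₁, hn₁⟩, hmem, hne, hdist, hu0, hv0, ⟨n₂, hn₂⟩⟩ :=
    Pool.Agent.H91.RT.exists_pair (I := X.I) (fun p hp d => X.homogeneous p hp d) hX.prime hX.dim m
  refine ⟨⟨⟨Ideal.Quotient.mk X.I u, u, mem_homog_natCast.2 hu, rfl⟩,
    ⟨Ideal.Quotient.mk X.I v, v, mem_homog_natCast.2 hv, rfl⟩, ?_, ⟨max n₁ m, ?_⟩, r, y, hmem,
    hne, hdist, ?_, ?_, ⟨max n₂ m, ?_⟩⟩⟩
  · intro h
    exact hune (Ideal.Quotient.eq_zero_iff_mem.1 h)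
  · rintro d hd _ ⟨a, ha, rfl⟩ _ ⟨c, hc, rfl⟩ h
    obtain ⟨d, rfl⟩ : ∃ k : ℕ, d = k := ⟨d.toNat, by omega⟩
    have h1 : v * a ∈ X.I ⊔ Ideal.span {u} := by
      have h2 : v * a - u * c ∈ X.I := by
        rw [← Ideal.Quotient.eq_zero_iff_mem, map_sub, map_mul, map_mul, sub_eq_zero]
        exact h
      rw [← sub_add_cancel (v * a) (u * c)]
      exact Ideal.add_mem _ (Ideal.mem_sup_left h2)
        (Ideal.mem_sup_right (Ideal.mul_mem_right _ _ (Ideal.mem_span_singleton_self _)))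
    obtain ⟨b, hb, hab⟩ := hn₁ d (by omega) a (mem_homog_natCast.1 ha) h1
    refine ⟨Ideal.Quotient.mk X.I b, ⟨b, ?_, rfl⟩, ?_⟩
    · rw [show (d : ℤ) - (m : ℤ) = ((d - m : ℕ) : ℤ) by omega]
      exact mem_homog_natCast.2 hb
    · rw [← Ideal.Quotient.eq_zero_iff_mem, map_sub, map_mul, sub_eq_zero] at hab
      exact hab
  · intro j
    exact (evA_mk _ _).trans (hu0 j)
  · intro j
    exact (evA_mk _ _).trans (hv0 j)
  · rintro d hd _ ⟨a, ha, rfl⟩ h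
    obtain ⟨d, rfl⟩ : ∃ k : ℕ, d = k := ⟨d.toNat, by omega⟩
    obtain ⟨b, c, hb, hc, hab⟩ := hn₂ d (by omega) a (mem_homog_natCast.1 ha)
      (fun j => (evA_mk _ _).symm.trans (h j))
    have e1 : (d : ℤ) - (m : ℤ) = ((d - m : ℕ) : ℤ) := by omega
    refine ⟨Ideal.Quotient.mk X.I b, ⟨b, ?_, rfl⟩, Ideal.Quotient.mk X.I c, ⟨c, ?_, rfl⟩, ?_⟩
    · rw [e1]
      exact mem_homog_natCast.2 hb
    · rw [e1]
      exact mem_homog_natCast.2 hc
    · rw [← Ideal.Quotient.eq_zero_iff_mem, map_sub, map_add, map_mul, map_mul, sub_eq_zero] at hab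
      exact hab

end Pool.Agent.H63.KH
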