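import Pool.Agent.H63.KH.Tw

/-!
# Coherent sheaves as objects of the bounded derived category `Db X`

`Sb X : Coh X ⥤ Db X`, fully faithful; `Hom(Sb P, (Sb Q)[i])` is zero for `i < 0`; short exact
sequences give distinguished triangles; twists `twb d` and multiplications.
-/

namespace Pool.Agent.H63.KH

open CategoryTheory Limits Pretriangulated DerivedCategory H24.Ku KS

section FS

variable {T T' : Type*} [Category T] [Category T'] [Preadditive T] [Preadditive T'] [Linear ℂ T]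
  [Linear ℂ T'] [HasShift T ℤ] [HasShift T' ℤ] (F : T ⥤ T') [F.CommShift ℤ] [F.Full]
  [F.Faithful] [F.Additive] [F.Linear ℂ]

/-- a fully faithful functor on shifted morphisms -/
noncomputable def FS {A B : T} {i : ℤ} : (A ⟶ B⟦i⟧) ≃ₗ[ℂ] (F.obj A ⟶ (F.obj B)⟦i⟧) :=
  LinearEquiv.ofBijective
    { toFun := fun f => F.map f ≫ (F.commShiftIso i).hom.app B
      map_add' := fun f g => by rw [Functor.map_add, Preadditive.add_comp]
      map_smul' := fun c f => by rw [Functor.map_smul, Linear.smul_comp]; rfl }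
    (by
      constructor
      · intro f g h
        apply F.map_injective
        exact (cancel_mono _).1 h
      · intro g
        obtain ⟨f, hf⟩ := F.map_surjective (g ≫ (F.commShiftIso i).inv.app B)
        refine ⟨f, ?_⟩
        change F.map f ≫ (F.commShiftIso i).hom.app B = g
        rw [hf, Category.assoc, Iso.inv_hom_id_app]
        exact Category.comp_id _)

lemma FS_apply {A B : T} {i : ℤ} (f : A ⟶ B⟦i⟧) :
    FS F f = F.map f ≫ (F.commShiftIso i).hom.app B := rfl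

lemma FS_left {A A' B : T} {i : ℤ} (g : A' ⟶ A) (f : A ⟶ B⟦i⟧) :
    FS F (g ≫ f) = F.map g ≫ FS F f := by
  rw [FS_apply, FS_apply, F.map_comp, Category.assoc]

lemma FS_right {A B B' : T} {i : ℤ} (f : A ⟶ B⟦i⟧) (g : B ⟶ B') :
    FS F (f ≫ g⟦i⟧') = FS F f ≫ (F.map g)⟦i⟧' := by
  rw [FS_apply, FS_apply, F.map_comp, Category.assoc, Category.assoc]
  congr 1
  exact (F.commShiftIso i).hom.naturality g

end FS

variable (X : ProjData)

/-- coherent sheaves as objects of `Db X` -/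
noncomputable def Sb : Coh X ⥤ Db X :=
  ObjectProperty.lift _ (S X) (fun _ => ⟨⟨0, inferInstance⟩, ⟨0, inferInstance⟩⟩)

instance : (Sb X).Additive where
  map_add := by
    intros
    apply ObjectProperty.hom_ext
    exact (S X).map_add

instance : (Sb X).Linear ℂ where
  map_smul f c := by
    apply ObjectProperty.hom_ext
    exact (S X).map_smul c f

instance : (Sb X).Full where
  map_surjective f := by
    obtain ⟨g, hg⟩ := (S X).map_surjective f.hom
    exact ⟨g, ObjectProperty.hom_ext _ hg⟩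

instance : (Sb X).Faithful where
  map_injective {P Q} f g h := by
    apply (S X).map_injective
    exact congrArg (fun φ => φ.hom) h

variable {X}

/-- `Hom(Sb P, (Sb Q)[i])` in `Db X` is `Hom(S P, (S Q)[i])` in `D(Coh X)`. -/
noncomputable def HD {P Q : Coh X} {i : ℤ} :
    ((Sb X).obj P ⟶ ((Sb X).obj Q)⟦i⟧) ≃ₗ[ℂ] ((S X).obj P ⟶ ((S X).obj Q)⟦i⟧) :=
  FS (Bounded.ι (C := Coh X))

lemma HD_left {P' P Q : Coh X} {i : ℤ} (g : P' ⟶ P)
    (f : (Sb X).obj P ⟶ ((Sb X).obj Q)⟦i⟧) :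
    HD ((Sb X).map g ≫ f) = (S X).map g ≫ HD f :=
  FS_left (Bounded.ι (C := Coh X)) ((Sb X).map g) f

lemma HD_right {P Q Q' : Coh X} {i : ℤ} (f : (Sb X).obj P ⟶ ((Sb X).obj Q)⟦i⟧)
    (g : Q ⟶ Q') :
    HD (f ≫ ((Sb X).map g)⟦i⟧') = HD f ≫ ((S X).map g)⟦i⟧' :=
  FS_right (Bounded.ι (C := Coh X)) f ((Sb X).map g)

lemma Sb_neg {P Q : Coh X} {i : ℤ} (hi : i < 0) (f : (Sb X).obj P ⟶ ((Sb X).obj Q)⟦i⟧) :
    f = 0 := by
  apply (HD (X := X)).map_eq_zero_iff.1
  have h1 : ((S X).obj Q).IsGE 0 := inferInstance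
  have h2 : (((S X).obj Q)⟦i⟧).IsGE (-i) := TStructure.t.isGE_shift _ 0 i (-i) (by lia)
  exact TStructure.t.zero (X := (S X).obj P) _ 0 (-i) (by lia)

/-- Short exact sequences give distinguished triangles in `Db X`. -/
lemma Sb_tri {T : ShortComplex (Coh X)} (hT : T.ShortExact) :
    ∃ δ : (Sb X).obj T.X₃ ⟶ ((Sb X).obj T.X₁)⟦(1 : ℤ)⟧,
      Triangle.mk ((Sb X).map T.f) ((Sb X).map T.g) δ ∈ distTriang (Db X) := by
  refine ⟨HD.symm hT.singleδ, ?_⟩
  have h := hT.singleTriangle_distinguished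
  refine isomorphic_distinguished _ h _ (Triangle.isoMk _ _ (Iso.refl _) (Iso.refl _)
    (Iso.refl _) ?_ ?_ ?_)
  · exact (Category.comp_id ((S X).map T.f)).trans (Category.id_comp _).symm
  · exact (Category.comp_id ((S X).map T.g)).trans (Category.id_comp _).symm
  · have h3 : HD (HD.symm hT.singleδ) = hT.singleδ := HD.apply_symm_apply _
    refine Eq.trans (b := HD (HD.symm hT.singleδ)) ?_ ?_
    · refine (congrArg (fun g => HD (HD.symm hT.singleδ) ≫ g) (CategoryTheory.Functor.map_id _ _)).trans ?_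
      exact Category.comp_id _
    · rw [h3]
      exact (Category.id_comp _).symm

/-- The bijection `Hom(P, Q[i]) ≃ Hom(P(d), Q(d)[i])` in `Db X`. -/
noncomputable def twb (d : ℤ) {P Q : Coh X} {i : ℤ} :
    ((Sb X).obj P ⟶ ((Sb X).obj Q)⟦i⟧) ≃ₗ[ℂ]
      ((Sb X).obj ((cohTwist X d).obj P) ⟶ ((Sb X).obj ((cohTwist X d).obj Q))⟦i⟧) :=
  (HD.trans (tw d)).trans HD.symm

lemma twb_comp_left (d : ℤ) {P' P Q : Coh X} {i : ℤ} (g : P' ⟶ P)
    (f : (Sb X).obj P ⟶ ((Sb X).obj Q)⟦i⟧) :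
    twb d ((Sb X).map g ≫ f) = (Sb X).map ((cohTwist X d).map g) ≫ twb d f := by
  apply HD.injective
  rw [HD_left]
  simp only [twb, LinearEquiv.trans_apply, LinearEquiv.apply_symm_apply]
  rw [HD_left, tw_comp_left]

lemma twb_comp_right (d : ℤ) {P Q Q' : Coh X} {i : ℤ} (f : (Sb X).obj P ⟶ ((Sb X).obj Q)⟦i⟧)
    (g : Q ⟶ Q') :
    twb d (f ≫ ((Sb X).map g)⟦i⟧') = twb d f ≫ ((Sb X).map ((cohTwist X d).map g))⟦i⟧' := by
  apply HD.injective
  rw [HD_right]
  simp only [twb, LinearEquiv.trans_apply, LinearEquiv.apply_symm_apply]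
  rw [HD_right, tw_comp_right]

/-- Multiplication by homogeneous elements is natural. -/
lemma twb_mul (d : ℤ) (s : X.piece d) {P Q : Coh X} {i : ℤ}
    (f : (Sb X).obj P ⟶ ((Sb X).obj Q)⟦i⟧) :
    (Sb X).map ((cohMul X d s).app P) ≫ twb d f =
      f ≫ ((Sb X).map ((cohMul X d s).app Q))⟦i⟧' := by
  apply HD.injective
  rw [HD_right, HD_left]
  simp only [twb, LinearEquiv.trans_apply, LinearEquiv.apply_symm_apply]
  exact tw_mul d s (HD f)

end Pool.Agent.H63.KH
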