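import Pool.Agent.H27.Orl.Trunc
import Pool.Agent.H63.CMP.Final
import Pool.Agent.H63.KH.Frac

/-!
# The tails `M ↦ M_{≥ k}` of graded modules as `Tails (finLen X)`
-/

namespace Pool.Agent.H63.KH

open CategoryTheory Limits H24.Ku CMP

variable (X : ProjData)

lemma finLen_cokernel_ge (k : ℤ) (M : Gr X) : finLen X (cokernel ((geι X k).app M)) :=
  (finLen_iff_ev _).2 ⟨k, fun m hm => (isZero_ev_cokernel_iff ((geι X k).app M) m).2
    (geι_bijective M (n := ⟨m⟩) hm).2⟩

/-- `M ↦ M_{≥ k}`, `k : ℕ`. -/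
noncomputable def tailsGr : Tails (finLen X) where
  t k := geF X k
  additive _ := inferInstance
  lim _ := inferInstance
  colim _ := inferInstance
  i k := geι X k
  dense k M := ⟨inferInstance, (finLen X).isoModSerre_of_mono _ (finLen_cokernel_ge X k M)⟩
  zero C hC := by
    obtain ⟨n₀, hn⟩ := hC
    refine ⟨n₀.toNat, (isZero_iff_subsingleton _).2 fun m => ?_⟩
    by_cases hm : ((n₀.toNat : ℕ) : ℤ) ≤ m.deg
    · have h1 := geι_bijective C (n := m) hm
      have h2 : Subsingleton (((𝟭 (Gr X)).obj C).obj.obj m) := hn m (le_trans (Int.self_le_toNat n₀) hm)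
      exact h1.1.subsingleton
    · exact geF_subsingleton C (not_le.1 hm)

end Pool.Agent.H63.KH
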