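import Pool.Agent.H24.Ku.CohTwist
import Pool.Agent.H63.KH.NatD
import Pool.Agent.H63.KS.Facts

/-!
# Twists on `Hom(P, Q[i])` for coherent sheaves `P, Q`
-/

namespace Pool.Agent.H63.KH

open CategoryTheory Limits DerivedCategory H24.Ku KS

variable {X : ProjData}

/-- The bijection `Hom(P, Q[i]) ≃ Hom(P(d), Q(d)[i])`. -/
noncomputable def tw (d : ℤ) {P Q : Coh X} {i : ℤ} :
    ((S X).obj P ⟶ ((S X).obj Q)⟦i⟧) ≃ₗ[ℂ]
      ((S X).obj ((cohTwist X d).obj P) ⟶ ((S X).obj ((cohTwist X d).obj Q))⟦i⟧) :=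
  LinearEquiv.ofBijective
    { toFun := fun f => twMap (cohTwist X d) f
      map_add' := fun f g => twMap_add _ f g
      map_smul' := fun c f => twMap_smul _ c f }
    (twMap_bijective (cohTwist X d) P Q i)

lemma tw_comp_left (d : ℤ) {P' P Q : Coh X} {i : ℤ} (g : P' ⟶ P)
    (f : (S X).obj P ⟶ ((S X).obj Q)⟦i⟧) :
    tw d ((S X).map g ≫ f) = (S X).map ((cohTwist X d).map g) ≫ tw d f :=
  twMap_comp_left _ g f

lemma tw_comp_right (d : ℤ) {P Q Q' : Coh X} {i : ℤ} (f : (S X).obj P ⟶ ((S X).obj Q)⟦i⟧)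
    (g : Q ⟶ Q') :
    tw d (f ≫ ((S X).map g)⟦i⟧') = tw d f ≫ ((S X).map ((cohTwist X d).map g))⟦i⟧' :=
  twMap_comp_right _ f g

/-- Multiplication by homogeneous elements is natural. -/
lemma tw_mul (d : ℤ) (s : X.piece d) {P Q : Coh X} {i : ℤ}
    (f : (S X).obj P ⟶ ((S X).obj Q)⟦i⟧) :
    (S X).map ((cohMul X d s).app P) ≫ tw d f = f ≫ ((S X).map ((cohMul X d s).app Q))⟦i⟧' :=
  twMap_nat _ (cohMul X d s) f

lemma tw_eq_zero (d : ℤ) {P Q : Coh X} {i : ℤ} {f : (S X).obj P ⟶ ((S X).obj Q)⟦i⟧}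
    (h : tw d f = 0) : f = 0 :=
  (LinearEquiv.map_eq_zero_iff (tw d)).1 h

end Pool.Agent.H63.KH
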